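import Pool.Agent.Helper78.Xor.Uni
import Pool.Agent.Helper78.Mpc.MMain

/-!
# Circuits with free linear gates and few nonlinear gates are weaker than linear space
-/

namespace Pool.Agent.Helper78.Xor

open Pool.Agent.Helper65.LinSpace Finset Filter Topology
open Pool.Agent.Helper78.Mpc

/-! ### The values of the gates -/

section

variable (F : Circ) (m : ℕ) (x y : List Bool)

/-- The value of the gate `g`. -/
noncomputable def gv (g : ℕ) : ℕ := F.vals m x y (g + 1) g

theorem vals_eq (g d : ℕ) : F.vals m x y (g + 1 + d) g = gv F m x y g := by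
  induction d with
  | zero => rfl
  | succ d ih =>
    show Function.update (F.vals m x y (g + 1 + d)) (g + 1 + d) _ g = _
    rw [Function.update_of_ne (by omega), ih]

theorem wireSum_congr (A : Set (List Bool)) (n g : ℕ) {v v' : ℕ → ℕ} (h : ∀ i < g, v i = v' i) :
    wireSum A n m g v = wireSum A n m g v' := by
  classical
  unfold wireSum
  congr 1
  refine sum_congr rfl fun i hi => ?_
  exact h i (mem_range.1 (mem_of_mem_filter i hi))

theorem gate_congr (g : ℕ) {v v' : ℕ → ℕ} (h : ∀ i < g, v i = v' i) :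
    F.gate m x y v g = F.gate m x y v' g := by
  unfold Circ.gate
  rw [wireSum_congr m F.left x.length g h, wireSum_congr m F.right x.length g h]

theorem gv_eq (g : ℕ) : gv F m x y g = F.gate m x y (gv F m x y) g := by
  have h : gv F m x y g = F.gate m x y (F.vals m x y g) g := by
    show Function.update (F.vals m x y g) g _ g = _
    rw [Function.update_self]
  rw [h]
  refine gate_congr F m x y g fun i hi => ?_
  obtain ⟨d, rfl⟩ := Nat.exists_eq_add_of_lt hi
  have e : i + d + 1 = i + 1 + d := by ring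
  rw [e]
  exact vals_eq F m x y i d

theorem gv_lt (hm : 2 ≤ m) (g : ℕ) : gv F m x y g < m := by
  have hb : ∀ b : Bool, b.toNat < m := fun b => lt_of_le_of_lt (toNat_le_one b) hm
  have hw : ∀ A n g v, wireSum A n m g v < m := fun A n g v => Nat.mod_lt _ (by omega)
  rw [gv_eq]
  unfold Circ.gate
  split_ifs <;> first | exact hb _ | exact hw _ _ _ _ | omega

end

/-! ### Conditions -/

theorem ev_condX (c k m a c0 : ℕ) {ε : ℝ} (hε : 0 < ε) (C : ℝ) : ∀ᶠ n : ℕ in atTop,
    (n + 2) ^ k ≤ 2 ^ la n ∧ m * (n + 2) ^ a ≤ 2 ^ la n ∧ n + c * n < 2 ^ la n ∧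
    c0 * (7 * la n + 4) ≤ LW n ∧ c0 + LW n + (7 * la n + 3) ≤ 2 ^ (2 * ll n) ∧
    C * ((n : ℝ) + 1) ^ (2 - ε) ≤ ((RR n * RR n : ℕ) : ℝ) := by
  have hpow : ∀ (n b : ℕ), 2 * b ≤ ll n → (n + 2) ^ b ≤ 2 ^ la n := by
    intro n b hb
    have hl := lt_two_pow_ll n
    have hp := ll_pos n
    have h4 : n + 2 ≤ 2 ^ (2 * ll n) := by
      have e : 2 ^ (2 * ll n) = 2 ^ ll n * 2 ^ ll n := by rw [two_mul, pow_add]
      have h5 : 2 ≤ 2 ^ ll n := by
        calc 2 = 2 ^ 1 := rfl
          _ ≤ 2 ^ ll n := Nat.pow_le_pow_right (by norm_num) hp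
      rw [e]
      nlinarith
    calc (n + 2) ^ b ≤ (2 ^ (2 * ll n)) ^ b := Nat.pow_le_pow_left h4 b
      _ = 2 ^ (2 * b * ll n) := by
        rw [← pow_mul]
        congr 1
        ring
      _ ≤ 2 ^ la n := by
        refine Nat.pow_le_pow_right (by norm_num) ?_
        unfold la
        exact Nat.mul_le_mul_right _ hb
  filter_upwards [ev_ll_ge (2 * k + 2 * (m + a) + 2 * (c + 2)), ev_ll_cube (11 * c0),
    eventually_ge_atTop (c0 + 40), ev_RR (show 0 < ε / 2 by positivity) (|C| + 1)]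
    with n h1 h2 h3 h6
  have hl := lt_two_pow_ll n
  have hWle : LW n ≤ n := Nat.div_le_self _ _
  have hsq := ll_sq_le n
  have hp := ll_pos n
  have hlt : ∀ b : ℕ, b ≤ (n + 2) ^ b := fun b =>
    (Nat.lt_two_pow_self (n := b)).le.trans (Nat.pow_le_pow_left (by omega) b)
  refine ⟨hpow n k (by omega), ?_, ?_, ?_, ?_, ?_⟩
  · calc m * (n + 2) ^ a ≤ (n + 2) ^ m * (n + 2) ^ a := Nat.mul_le_mul_right _ (hlt m)
      _ = (n + 2) ^ (m + a) := by rw [pow_add]
      _ ≤ 2 ^ la n := hpow n (m + a) (by omega)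
  · have h7 : n + c * n < (n + 2) ^ (c + 2) := by
      calc n + c * n = (c + 1) * n := by ring
        _ < (c + 1) * (n + 2) := Nat.mul_lt_mul_of_pos_left (by omega) (by omega)
        _ ≤ (n + 2) ^ (c + 1) * (n + 2) := Nat.mul_le_mul_right _ (hlt (c + 1))
        _ = (n + 2) ^ (c + 2) := by ring
    exact lt_of_lt_of_le h7 (hpow n (c + 2) (by omega))
  · unfold LW
    rw [Nat.le_div_iff_mul_le hp]
    have h7 : ll n ≤ ll n * ll n * ll n := by nlinarith [Nat.mul_le_mul hp hp]
    have h8 : c0 * ll n ≤ c0 * (ll n * ll n * ll n) := Nat.mul_le_mul_left _ h7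
    have e : c0 * (7 * la n + 4) * ll n =
        7 * (c0 * (ll n * ll n * ll n)) + 4 * (c0 * ll n) := by
      unfold la
      ring
    have e3 : 11 * c0 * (ll n * ll n * ll n) = 11 * (c0 * (ll n * ll n * ll n)) := by ring
    rw [e]
    rw [e3] at h2
    omega
  · have e : 2 ^ (2 * ll n) = 2 ^ ll n * 2 ^ ll n := by rw [two_mul, pow_add]
    have h4 : (n + 1) * (n + 1) ≤ 2 ^ (2 * ll n) := by
      rw [e]
      exact Nat.mul_le_mul hl hl
    refine le_trans ?_ h4
    have h5 : la n ≤ 4 * (n + 1) := hsq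
    nlinarith
  · have hn0 : (0 : ℝ) < (n : ℝ) + 1 := by positivity
    have hC0 := abs_nonneg C
    have h7 : (0 : ℝ) ≤ ((n : ℝ) + 1) ^ (1 - ε / 2) := by positivity
    have h8 : ((n : ℝ) + 1) ^ (2 - ε) = ((n : ℝ) + 1) ^ (1 - ε / 2) *
        ((n : ℝ) + 1) ^ (1 - ε / 2) := by
      rw [← Real.rpow_add hn0]
      congr 1
      ring
    have h9 : (0 : ℝ) ≤ (|C| + 1) * ((n : ℝ) + 1) ^ (1 - ε / 2) := by positivity
    have h10 := mul_le_mul h6 h6 h9 (Nat.cast_nonneg (RR n))
    push_cast
    refine le_trans ?_ h10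
    rw [h8]
    have h11 : C ≤ (|C| + 1) * (|C| + 1) := by
      have := le_abs_self C
      nlinarith
    calc C * (((n : ℝ) + 1) ^ (1 - ε / 2) * ((n : ℝ) + 1) ^ (1 - ε / 2)) ≤
        ((|C| + 1) * (|C| + 1)) * (((n : ℝ) + 1) ^ (1 - ε / 2) * ((n : ℝ) + 1) ^ (1 - ε / 2)) :=
          mul_le_mul_of_nonneg_right h11 (by positivity)
      _ = _ := by ring

/-! ### Correctness -/

theorem lt01_of {x y : ℕ} (h : x < y) : lt01 x y = 1 := if_pos h

theorem lt01_not {x y : ℕ} (h : ¬ x < y) : lt01 x y = 0 := if_neg h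

section

variable {F : Circ} {e1 e2 e3 e4 Λ β n N q lam c : ℕ} {x y : List Bool}

/-- The indicator of the wires is correct. -/
theorem wiF_sum {A : Set (List Bool)} {e : ℕ}
    (hA : ∀ g < N, ∀ h < g, univ e Λ β (w3N n g h) = 1 ↔ w3 n g h ∈ A) (hN : N ≤ 2 ^ lam)
    {v v' : ℕ → ℕ} (hv : ∀ h < N, v' h = v h) {g : ℕ} (hg : g < N) :
    (∑ h ∈ range (2 ^ lam), wiF e Λ β n N g h * v' h) % q = wireSum A n q g v := by
  classical
  unfold wireSum
  congr 1
  rw [sum_filter]
  symm
  have h1 : ∑ h ∈ range (2 ^ lam), wiF e Λ β n N g h * v' h =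
      ∑ h ∈ range g, wiF e Λ β n N g h * v' h := by
    symm
    refine sum_subset (range_subset_range.2 (by omega)) fun h _ hh => ?_
    rw [mem_range] at hh
    unfold wiF
    rw [lt01_not hh, zero_mul, mul_zero, zero_mul]
  rw [h1]
  refine sum_congr rfl fun h hh => ?_
  rw [mem_range] at hh
  unfold wiF
  rw [lt01_of hg, lt01_of hh, one_mul, one_mul, hv h (by omega)]
  have h2 := hA g hg h hh
  have h3 := univ_lt e Λ β (w3N n g h)
  split_ifs with h4
  · rw [h2.2 h4, one_mul]
  · have h5 : univ e Λ β (w3N n g h) = 0 := by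
      by_contra h5
      exact h4 (h2.1 (by omega))
    rw [h5, zero_mul]

/-- The values of the gates below `N`. -/
noncomputable def gV (F : Circ) (q : ℕ) (x y : List Bool) (K N u : ℕ) : ℕ :=
  if u < N ∨ u ≤ K then gv F q x y u else 0

theorem isVal (hx : x.length = n) (hy : y.length = c * n)
    (h1 : ∀ g < N, univ e1 Λ β (w2N n g) = 1 ↔ w2 n g ∈ F.nonlin)
    (h2 : ∀ g < N, ∀ h < g, univ e2 Λ β (w3N n g h) = 1 ↔ w3 n g h ∈ F.left)
    (h3 : ∀ g < N, ∀ h < g, univ e3 Λ β (w3N n g h) = 1 ↔ w3 n g h ∈ F.right)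
    (h4 : ∀ g < N, ∀ s < q, ∀ t < q, univ e4 Λ β (w4N n g s t) = 1 ↔ w4 n g s t ∈ F.op)
    (hq : 0 < q) (hN : N ≤ 2 ^ lam) :
    IsVal q (2 ^ lam) (n + c * n) N (nlF e1 Λ β n (n + c * n) N) (wiF e2 Λ β n N)
      (wiF e3 Λ β n N) (opF e4 Λ β n) (inpF (num x) (num y) n)
      (gV F q x y (n + c * n) N) := by
  have hnl : ∀ g, nlF e1 Λ β n (n + c * n) N g ≠ 0 → n + c * n < g ∧ g < N ∧
      univ e1 Λ β (w2N n g) = 1 := by
    intro g hg
    unfold nlF at hg
    have hlt := univ_lt e1 Λ β (w2N n g)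
    by_cases a1 : n + c * n < g
    · by_cases a2 : g < N
      · rw [lt01_of a1, lt01_of a2, one_mul, one_mul] at hg
        exact ⟨a1, a2, by omega⟩
      · rw [lt01_not a2, zero_mul, mul_zero] at hg
        exact absurd rfl hg
    · rw [lt01_not a1, zero_mul] at hg
      exact absurd rfl hg
  have hwi : ∀ e g h, wiF e Λ β n N g h ≠ 0 → h < g := by
    intro e g h hh
    by_contra h5
    apply hh
    unfold wiF
    rw [lt01_not h5, zero_mul, mul_zero]
  have hv : ∀ h < N, gV F q x y (n + c * n) N h = gv F q x y h := fun h hh =>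
    if_pos (Or.inl hh)
  refine
    { nl_le := fun g => nlF_le _ _ _ _ _ _ _
      nl_lt := fun g hg => ⟨(hnl g hg).1, (hnl g hg).2.1⟩
      le_lt := fun g h => hwi e2 g h
      ri_lt := fun g h => hwi e3 g h
      val_inp := ?_
      val_lin := ?_
      val_nl := ?_ }
  · intro u hu
    have e0 : gV F q x y (n + c * n) N u = gv F q x y u := if_pos (Or.inr hu)
    rw [e0, gv_eq]
    unfold Circ.gate inpF
    rw [hx, hy]
    by_cases a1 : u = 0
    · rw [if_pos a1, a1, ifz_zero]
    · rw [if_neg a1, ifz_ne a1]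
      by_cases a2 : u ≤ n
      · rw [if_pos a2, lt01_not (by omega), ifz_zero, dig_num x (u - 1) (by omega),
          List.getD_eq_getElem _ _ (by omega)]
      · rw [if_neg a2, if_pos hu, lt01_of (by omega), ifz_ne one_ne_zero,
          dig_num y (u - 1 - n) (by omega), List.getD_eq_getElem _ _ (by omega)]
  · intro u hK hu hnl0
    by_cases huN : u < N
    · have e0 : gV F q x y (n + c * n) N u = gv F q x y u := if_pos (Or.inl huN)
      have a3 : w2 n u ∉ F.nonlin := by
        intro h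
        rw [← h1 u huN] at h
        unfold nlF at hnl0
        rw [lt01_of hK, lt01_of huN, h] at hnl0
        omega
      rw [wiF_sum (A := F.left) h2 hN hv huN, e0, gv_eq]
      unfold Circ.gate
      rw [hx, hy, if_neg (by omega), if_neg (by omega), if_neg (by omega), if_neg a3]
    · have e0 : gV F q x y (n + c * n) N u = 0 := if_neg (by omega)
      rw [e0]
      symm
      have e1 : ∑ h ∈ range (2 ^ lam), wiF e2 Λ β n N u h * gV F q x y (n + c * n) N h = 0 := by
        refine sum_eq_zero fun h _ => ?_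
        unfold wiF
        rw [lt01_not huN, zero_mul, zero_mul]
      rw [e1, Nat.zero_mod]
  · intro u hu
    obtain ⟨hK, huN, hun⟩ := hnl u hu
    have e0 : gV F q x y (n + c * n) N u = gv F q x y u := if_pos (Or.inl huN)
    rw [wiF_sum (A := F.left) h2 hN hv huN, wiF_sum (A := F.right) h3 hN hv huN, e0, gv_eq]
    have hs : ∀ A, wireSum A n q u (gv F q x y) < q := fun A => Nat.mod_lt _ hq
    have h5 := h4 u huN _ (hs F.left) _ (hs F.right)
    have h6 := univ_lt e4 Λ β (w4N n u (wireSum F.left n q u (gv F q x y))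
      (wireSum F.right n q u (gv F q x y)))
    unfold Circ.gate opF
    rw [hx, hy, if_neg (by omega), if_neg (by omega), if_neg (by omega),
      if_pos ((h1 u huN).1 hun)]
    split_ifs with h7
    · exact (h5.2 h7).symm
    · by_contra h8
      exact h7 (h5.1 (by omega))

end

/-- Every family of circuits has a code. -/
theorem exists_UX (F : Circ) (c k m a : ℕ) (hm : 2 ≤ m) {C ε : ℝ} (hε : 0 < ε)
    (hcard : ∀ n : ℕ, open Classical in
      (((Finset.range ((n + 2) ^ k)).filter fun g => w2 n g ∈ F.nonlin).card : ℝ) ≤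
        C * ((n : ℝ) + 1) ^ (2 - ε)) : ∃ e n₀ : ℕ, ∀ w : List Bool, n₀ ≤ w.length →
    (UX c e (num w) ≠ 0 ↔ ∃ y : List Bool, y.length = c * w.length ∧
      F.vals (m * (w.length + 2) ^ a) w y ((w.length + 2) ^ k) ((w.length + 2) ^ k - 1) = 1) := by
  classical
  obtain ⟨e1, c1, hu1⟩ := univ_spec F.nonlin_lin
  obtain ⟨e2, c2, hu2⟩ := univ_spec F.left_lin
  obtain ⟨e3, c3, hu3⟩ := univ_spec F.right_lin
  obtain ⟨e4, c4, hu4⟩ := univ_spec F.op_lin
  obtain ⟨n₀, hn₀⟩ := eventually_atTop.1 (ev_condX c k m a (c1 + c2 + c3 + c4) hε C)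
  refine ⟨Nat.pair e1 (Nat.pair e2 (Nat.pair e3 (Nat.pair e4 (Nat.pair k (Nat.pair m a))))), n₀,
    fun w hw => ?_⟩
  obtain ⟨b1, b2, b3, b4, b5, b6⟩ := hn₀ w.length hw
  have hlog := log_num w
  have hcard' := hcard w.length
  obtain ⟨n, hn⟩ : ∃ n, w.length = n := ⟨_, rfl⟩
  rw [hn] at b1 b2 b3 b4 b5 b6 hlog hcard' ⊢
  obtain ⟨N, hN⟩ : ∃ N, (n + 2) ^ k = N := ⟨_, rfl⟩
  obtain ⟨q, hq⟩ : ∃ q, m * (n + 2) ^ a = q := ⟨_, rfl⟩
  have hN0 : 0 < N := by
    rw [← hN]
    exact Nat.pow_pos (by omega)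
  have ha0 : 0 < (n + 2) ^ a := Nat.pow_pos (by omega)
  have hq2 : 2 ≤ q := by
    rw [← hq]
    calc 2 ≤ m * 1 := by omega
      _ ≤ m * (n + 2) ^ a := Nat.mul_le_mul_left _ ha0
  have hCX : 2 ^ la n ≤ CX (num w) := by
    have := la_b5 (num w)
    rwa [hlog] at this
  have hcapN : capPow (n + 2) k (CX (num w)) = N := by
    rw [capPow, min_eq_left (by omega), hN]
  have hcapQ : QX m a n (num w) = q := by
    have h1 : (n + 2) ^ a ≤ m * (n + 2) ^ a := Nat.le_mul_of_pos_left _ (by omega)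
    unfold QX
    rw [capPow, min_eq_left (show (n + 2) ^ a ≤ CX (num w) + 1 by omega), min_eq_left b2, hq,
      max_eq_right (by omega)]
  rw [hN] at b1
  rw [hq] at b2
  rw [hN] at hcard'
  have hcond : ∀ c' ≤ c1 + c2 + c3 + c4, ∀ v : List Bool, v.length ≤ 7 * la n + 3 →
      c' * (v.length + 1) ≤ LW n ∧ c' + LW n + v.length ≤ 2 ^ (2 * ll n) := by
    intro c' hc' v hv
    constructor
    · refine le_trans ?_ b4
      exact Nat.mul_le_mul hc' (by omega)
    · omega
  have hnlt : n < 2 ^ la n := lt_of_le_of_lt (Nat.le_add_right _ _) b3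
  have g1 : ∀ g < N, univ e1 (LW n) (2 ^ (2 * ll n)) (w2N n g) = 1 ↔ w2 n g ∈ F.nonlin := by
    intro g hg
    rw [w2N_eq]
    obtain ⟨h1, h2⟩ := hcond c1 (by omega) (w2 n g) (length_w2 hnlt (by omega))
    exact hu1 _ _ _ h1 h2
  have g2 : ∀ g < N, ∀ h < g, univ e2 (LW n) (2 ^ (2 * ll n)) (w3N n g h) = 1 ↔
      w3 n g h ∈ F.left := by
    intro g hg h hh
    rw [w3N_eq]
    obtain ⟨h1, h2⟩ := hcond c2 (by omega) (w3 n g h) (length_w3 hnlt (by omega) (by omega))
    exact hu2 _ _ _ h1 h2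
  have g3 : ∀ g < N, ∀ h < g, univ e3 (LW n) (2 ^ (2 * ll n)) (w3N n g h) = 1 ↔
      w3 n g h ∈ F.right := by
    intro g hg h hh
    rw [w3N_eq]
    obtain ⟨h1, h2⟩ := hcond c3 (by omega) (w3 n g h) (length_w3 hnlt (by omega) (by omega))
    exact hu3 _ _ _ h1 h2
  have g4 : ∀ g < N, ∀ s < q, ∀ t < q, univ e4 (LW n) (2 ^ (2 * ll n)) (w4N n g s t) = 1 ↔
      w4 n g s t ∈ F.op := by
    intro g hg s hs t ht
    rw [w4N_eq]
    obtain ⟨h1, h2⟩ := hcond c4 (by omega) (w4 n g s t)
      (length_w4 hnlt (by omega) (by omega) (by omega))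
    exact hu4 _ _ _ h1 h2
  have hrank : rankN (nlF e1 (LW n) (2 ^ (2 * ll n)) n (n + c * n) N) N ≤ RR n * RR n := by
    have h1 : rankN (nlF e1 (LW n) (2 ^ (2 * ll n)) n (n + c * n) N) N ≤
        ((Finset.range N).filter fun g => w2 n g ∈ F.nonlin).card := by
      rw [card_filter]
      refine sum_le_sum fun g hg => ?_
      rw [mem_range] at hg
      split_ifs with h2
      · exact nlF_le _ _ _ _ _ _ _
      · have h3 : univ e1 (LW n) (2 ^ (2 * ll n)) (w2N n g) = 0 := by
          have := univ_lt e1 (LW n) (2 ^ (2 * ll n)) (w2N n g)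
          by_contra h3
          exact h2 ((g1 g hg).1 (by omega))
        unfold nlF
        rw [h3, mul_zero, mul_zero]
    have h2 := hcard'.trans b6
    have h3 : ((Finset.range N).filter fun g => w2 n g ∈ F.nonlin).card ≤ RR n * RR n := by
      exact_mod_cast h2
    exact h1.trans h3
  have key : ∀ y : List Bool, y.length = c * n →
      outX c e1 e2 e3 e4 k m a n (num w) (num y) = F.vals q w y N (N - 1) := by
    intro y hy
    have hV := isVal (F := F) (x := w) (y := y) (c := c) (n := n) (N := N) (q := q)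
      (lam := la n) hn hy g1 g2 g3 g4 (by omega) b1
    unfold outX outG
    rw [hcapN, hcapQ]
    have hRR : RR n ≤ 2 ^ la n := by
      have : RR n ≤ n := Nat.div_le_self _ _
      omega
    have hop : ∀ r s t, opR (la n) (nlF e1 (LW n) (2 ^ (2 * ll n)) n (n + c * n) N)
        (opF e4 (LW n) (2 ^ (2 * ll n)) n) r s t < 2 := fun r s t => opF_lt _ _ _ _ _ _ _
    have hcap : 2 ^ RR n ≤ CX (num w) := by
      have := RR_b1 (num w)
      rwa [hlog] at this
    rw [out_eq hV (by omega) b2 b1 hN0 b3]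
    · have h1 : gV F q w y (n + c * n) N (N - 1) = gv F q w y (N - 1) :=
        if_pos (Or.inl (by omega))
      have h2 : F.vals q w y N (N - 1) = gv F q w y (N - 1) := by
        have := vals_eq F q w y (N - 1) 0
        rwa [add_zero, Nat.sub_add_cancel hN0] at this
      rw [h1, h2]
      exact Nat.mod_eq_of_lt (gv_lt F q w y hq2 _)
    · intro r hr
      rw [V_nth hV (by omega) b2 b1 r hr]
      unfold sigX
      refine VX_sig hop (by omega) ?_ (RR_le_LX n) hcap hRR le_rfl (lt_of_lt_of_le hr hrank)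
      rw [← hcapQ]
      exact QX_pow m a n (num w)
  unfold UX
  simp only [Nat.unpair_pair]
  rw [hlog, hq, hN]
  constructor
  · intro hne
    rw [Ne, sum_eq_zero_iff] at hne
    push Not at hne
    obtain ⟨y, _, hne⟩ := hne
    have hy0 : 0 < y := by
      by_contra h
      apply hne
      rw [lt01_not h, zero_mul]
    obtain ⟨v, rfl⟩ := exists_num hy0
    have h1 : eq01 (Nat.log 2 (num v)) (c * n) ≠ 0 := by
      intro h
      apply hne
      rw [h, zero_mul, mul_zero]
    have h2 : eq01 (outX c e1 e2 e3 e4 k m a n (num w) (num v)) 1 ≠ 0 := by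
      intro h
      apply hne
      rw [h, mul_zero, mul_zero]
    have h3 : v.length = c * n := by
      by_contra h
      exact h1 (if_neg (by rwa [log_num]))
    refine ⟨v, h3, ?_⟩
    rw [← key v h3]
    by_contra h
    exact h2 (if_neg h)
  · rintro ⟨y, hy, hacc⟩ h0
    rw [sum_eq_zero_iff] at h0
    have hy1 : num y ∈ range (2 ^ (c * n + 1)) := by
      rw [mem_range]
      have h4 := Nat.lt_pow_succ_log_self (b := 2) (by norm_num) (num y)
      rwa [log_num, hy] at h4
    have h5 := h0 (num y) hy1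
    rw [key y hy, hacc, lt01_of (num_pos y), log_num, hy] at h5
    simp [eq01] at h5

/-- The main theorem. -/
theorem main (c : ℕ) :
    (∀ (F : Circ) (k m a : ℕ) (C ε : ℝ) (L : Set (List Bool)), 2 ≤ m → 0 < ε →
      F.Computes c k m a C ε L → DLINSPACE L) ∧
    ∃ L : Set (List Bool), DLINSPACE L ∧ ∀ (F : Circ) (k m a : ℕ) (C ε : ℝ), 2 ≤ m → 0 < ε →
      ¬ F.Computes c k m a C ε L := by
  have hrun : ∀ (F : Circ) (k m a : ℕ) (C ε : ℝ) (L : Set (List Bool)), 2 ≤ m → 0 < ε →
      F.Computes c k m a C ε L →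
      ∃ e N : ℕ, ∀ w : List Bool, N ≤ w.length → (w ∈ L ↔ UX c e (num w) ≠ 0) := by
    intro F k m a C ε L hm hε hF
    obtain ⟨e, n₀, he⟩ := exists_UX F c k m a hm hε hF.1
    refine ⟨e, n₀, fun w hw => ?_⟩
    rw [he w hw]
    exact hF.2 w
  constructor
  · classical
    intro F k m a C ε L hm hε hF
    obtain ⟨e, N, he⟩ := hrun F k m a C ε L hm hε hF
    let B : ℕ := tab 2 (2 ^ (N + 1)) fun x => if ∃ w ∈ L, num w = x then 1 else 0
    refine LS.dlinspace (F := fun x => ifz (le01 N (Nat.log 2 x)) (dig 2 B x) (UX c e x)) ?_ L ?_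
    · exact LS.ifz (by fun_prop) (by fun_prop) (LS.UX c (LS.const e) LS.id)
    · intro w
      by_cases h : N ≤ w.length
      · have h1 : le01 N (Nat.log 2 (num w)) = 1 := by
          rw [log_num, le01, if_pos h]
        simp only [h1]
        rw [ifz_ne one_ne_zero]
        exact he w h
      · have h1 : le01 N (Nat.log 2 (num w)) = 0 := by
          rw [log_num, le01, if_neg h]
        simp only [h1]
        rw [ifz_zero]
        have h2 : num w < 2 ^ (N + 1) := by
          have h3 := Nat.lt_pow_succ_log_self (b := 2) (by norm_num) (num w)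
          rw [log_num] at h3
          exact lt_of_lt_of_le h3 (Nat.pow_le_pow_right (by norm_num) (by omega))
        have h3 : dig 2 B (num w) = if ∃ w' ∈ L, num w' = num w then 1 else 0 := by
          refine dig_tab ?_ h2
          intro i _
          split_ifs <;> norm_num
        rw [h3]
        constructor
        · intro hw
          rw [if_pos ⟨w, hw, rfl⟩]
          exact one_ne_zero
        · intro h4
          by_contra hw
          apply h4
          rw [if_neg]
          rintro ⟨w', hw', h5⟩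
          rw [num_injective h5] at hw'
          exact hw hw'
  · refine ⟨{w | UX c (lead (num w)) (num w) = 0}, ?_, ?_⟩
    · refine LS.dlinspace (F := fun x => ifz (UX c (lead x) x) 1 0) ?_ _ ?_
      · exact LS.ifz (LS.UX c (LS.lead LS.id) LS.id) (LS.const 1) (LS.const 0)
      · intro w
        simp only [Set.mem_ofPred_eq]
        constructor
        · intro h
          rw [h]
          exact one_ne_zero
        · intro h
          by_contra h2
          exact h (ifz_ne h2 _ _)
    · intro F k m a C ε hm hε hF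
      obtain ⟨e, N, he⟩ := hrun F k m a C ε _ hm hε hF
      have hlen : N ≤ (dw e N).length := by
        rw [length_dw]
        omega
      have hlead : lead (num (dw e N)) = e := lead_dw _ _
      have h1 := he (dw e N) hlen
      have h2 : dw e N ∈ {w : List Bool | UX c (lead (num w)) (num w) = 0} ↔
          UX c e (num (dw e N)) = 0 := by
        show UX c (lead (num (dw e N))) (num (dw e N)) = 0 ↔ _
        rw [hlead]
      rw [h2] at h1
      exact iff_not_self h1

end Pool.Agent.Helper78.Xor
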