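import Pool.Agent.Helper78.Xor.Path

/-!
# From circuits to straight-line programs
-/

namespace Pool.Agent.Helper78.Xor

open Pool.Agent.Helper65.LinSpace Finset
open Pool.Agent.Helper78.Mpc

/-- The matrix of the linear gates. -/
def tN (K : ℕ) (nl : ℕ → ℕ) (le : ℕ → ℕ → ℕ) (u h : ℕ) : ℕ :=
  ifz (le01 u K + nl u) (le u h) (eq01 u h)

/-- The coefficient of the source `h` in the value of the gate `u`. -/
def WN (q lam K : ℕ) (nl : ℕ → ℕ) (le : ℕ → ℕ → ℕ) (u h : ℕ) : ℕ :=
  VW q lam lam (tN K nl le) (lam * (lam + 1)) (pack4 (2 ^ lam) lam 0 u h)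

/-- The number of nonlinear gates before `g`. -/
def rankN (nl : ℕ → ℕ) (g : ℕ) : ℕ := ∑ h ∈ range g, nl h

/-- The `r`-th nonlinear gate. -/
def nthN (M : ℕ) (nl : ℕ → ℕ) (r : ℕ) : ℕ := ∑ g ∈ range M, le01 (rankN nl (g + 1)) r

/-- The coefficient of the source `h` in the left or right sum of the gate `g`. -/
def coefN (q lam K : ℕ) (nl : ℕ → ℕ) (le ri : ℕ → ℕ → ℕ) (s g h : ℕ) : ℕ :=
  (∑ z ∈ range (2 ^ lam), ifz s (le g z) (ri g z) * WN q lam K nl le z h) % q

/-- The contribution of the inputs. -/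
def bN (q lam K : ℕ) (nl : ℕ → ℕ) (le ri : ℕ → ℕ → ℕ) (inp : ℕ → ℕ) (s r : ℕ) : ℕ :=
  (∑ h ∈ range (K + 1), coefN q lam K nl le ri s (nthN (2 ^ lam) nl r) h * inp h) % q

/-- The coefficients of the straight-line program. -/
def cN (q lam K : ℕ) (nl : ℕ → ℕ) (le ri : ℕ → ℕ → ℕ) (s r i : ℕ) : ℕ :=
  coefN q lam K nl le ri s (nthN (2 ^ lam) nl r) (nthN (2 ^ lam) nl i)

/-- The operations of the straight-line program. -/
def opR (lam : ℕ) (nl : ℕ → ℕ) (opf : ℕ → ℕ → ℕ → ℕ) (r s t : ℕ) : ℕ :=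
  opf (nthN (2 ^ lam) nl r) s t

/-- The output. -/
def outS (q lam K N : ℕ) (nl : ℕ → ℕ) (le : ℕ → ℕ → ℕ) (inp σ : ℕ → ℕ) : ℕ :=
  ((∑ h ∈ range (K + 1), WN q lam K nl le (N - 1) h * inp h) % q +
    (∑ r ∈ range (rankN nl N), WN q lam K nl le (N - 1) (nthN (2 ^ lam) nl r) * σ r) % q) % q

/-! ### Ranks -/

section

variable {nl : ℕ → ℕ}

theorem rankN_succ (nl : ℕ → ℕ) (g : ℕ) : rankN nl (g + 1) = rankN nl g + nl g :=
  sum_range_succ _ _

theorem rankN_mono {g h : ℕ} (hgh : g ≤ h) : rankN nl g ≤ rankN nl h :=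
  sum_le_sum_of_subset (range_subset_range.2 hgh)

theorem nthN_rank {M g : ℕ} (hg : g < M) (hnl : nl g = 1) : nthN M nl (rankN nl g) = g := by
  refine sum_lt_ind hg.le fun i hi => ?_
  by_cases h : i < g
  · rw [if_pos h, le01, if_pos (rankN_mono h)]
  · have h1 : rankN nl (g + 1) ≤ rankN nl (i + 1) := rankN_mono (by omega)
    rw [rankN_succ nl g] at h1
    rw [if_neg h, le01, if_neg (by omega)]

theorem sum_nl (hnl : ∀ g, nl g ≤ 1) {R : Type} [CommSemiring R] {M g : ℕ} (hg : g ≤ M)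
    (f : ℕ → R) : ∑ h ∈ range g, (nl h : R) * f h =
      ∑ r ∈ range (rankN nl g), f (nthN M nl r) := by
  induction g with
  | zero => simp [rankN]
  | succ g ih =>
    rw [sum_range_succ, ih (by omega), rankN_succ]
    have h1 := hnl g
    rcases Nat.eq_zero_or_pos (nl g) with h | h
    · rw [h, Nat.cast_zero, zero_mul, add_zero, add_zero]
    · have h2 : nl g = 1 := by omega
      rw [h2, sum_range_succ, nthN_rank (by omega) h2, Nat.cast_one, one_mul]

theorem exists_rank (hnl : ∀ g, nl g ≤ 1) : ∀ (N r : ℕ) (_ : r < rankN nl N),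
    ∃ g < N, nl g = 1 ∧ rankN nl g = r
  | 0, r, h => absurd h (by simp [rankN])
  | N + 1, r, h => by
    rw [rankN_succ] at h
    by_cases h1 : r < rankN nl N
    · obtain ⟨g, hg, h2⟩ := exists_rank hnl N r h1
      exact ⟨g, by omega, h2⟩
    · have := hnl N
      exact ⟨N, by omega, by omega, by omega⟩

end

/-! ### The values -/

section

variable {q lam K N : ℕ} {nl : ℕ → ℕ} {le ri : ℕ → ℕ → ℕ} {opf : ℕ → ℕ → ℕ → ℕ} {inp V : ℕ → ℕ}

/-- The properties of the values of a circuit. -/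
structure IsVal (q M K N : ℕ) (nl : ℕ → ℕ) (le ri : ℕ → ℕ → ℕ) (opf : ℕ → ℕ → ℕ → ℕ)
    (inp V : ℕ → ℕ) : Prop where
  nl_le : ∀ g, nl g ≤ 1
  nl_lt : ∀ g, nl g ≠ 0 → K < g ∧ g < N
  le_lt : ∀ g h, le g h ≠ 0 → h < g
  ri_lt : ∀ g h, ri g h ≠ 0 → h < g
  val_inp : ∀ u ≤ K, V u = inp u
  val_lin : ∀ u, K < u → u < M → nl u = 0 → V u = (∑ h ∈ range M, le u h * V h) % q
  val_nl : ∀ u, nl u ≠ 0 →
    V u = opf u ((∑ h ∈ range M, le u h * V h) % q) ((∑ h ∈ range M, ri u h * V h) % q)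

variable (hV : IsVal q (2 ^ lam) K N nl le ri opf inp V)

include hV

theorem tN_src (u : ℕ) (hu : u < 2 ^ lam) (hs : u ≤ K ∨ nl u ≠ 0) (h : ℕ) (hh : h < 2 ^ lam) :
    tN K nl le u h = if u = h then 1 else 0 := by
  unfold tN
  have h1 : le01 u K + nl u ≠ 0 := by
    rcases hs with h | h
    · rw [le01, if_pos h]
      omega
    · omega
  rw [ifz_ne h1]
  rfl

theorem tN_lin (u : ℕ) (hs : ¬ (u ≤ K ∨ nl u ≠ 0)) (h : ℕ) : tN K nl le u h = le u h := by
  unfold tN
  have h1 : le01 u K + nl u = 0 := by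
    rw [le01, if_neg fun h => hs (Or.inl h), zero_add]
    by_contra h
    exact hs (Or.inr h)
  rw [h1, ifz_zero]

theorem WN_eq (hq : 0 < q) (hL : q ≤ 2 ^ lam) {u h : ℕ} (hu : u < 2 ^ lam) (hh : h < 2 ^ lam) :
    WN q lam K nl le u h = sqN q (2 ^ lam) (tN K nl le) lam u h := VW_sq hq hL lam u hu h hh

theorem WN_low (hq : 0 < q) (hL : q ≤ 2 ^ lam) {u h : ℕ} (hu : u < 2 ^ lam) (hh : h < 2 ^ lam)
    (h1 : u < h) : (WN q lam K nl le u h : ZMod q) = 0 := by
  rw [WN_eq hV hq hL hu hh]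
  refine sqN_low (src := fun u => u ≤ K ∨ nl u ≠ 0) (fun u hu hs h hh => tN_src hV u hu hs h hh)
    (fun u hu hs h hh h1 => ?_) lam hu hh h1
  rw [tN_lin hV u hs] at h1
  exact hV.le_lt u h h1

/-- The value of a gate as a combination of the values of the sources. -/
theorem WN_val (hq : 0 < q) (hL : q ≤ 2 ^ lam) {u : ℕ} (hu : u < 2 ^ lam) : (V u : ZMod q) =
    ∑ h ∈ range (2 ^ lam), if h ≤ K ∨ nl h ≠ 0 then (WN q lam K nl le u h : ZMod q) *
      (V h : ZMod q) else 0 := by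
  classical
  have h1 := sqN_src (q := q) (M := 2 ^ lam) (t := tN K nl le) (src := fun u => u ≤ K ∨ nl u ≠ 0)
    (V := V) (by positivity) ?_ (fun u hu hs h hh => tN_src hV u hu hs h hh)
    (fun u hu hs h hh h1 => ?_) (i := lam) le_rfl hu
  · rw [h1]
    refine sum_congr rfl fun h hh => ?_
    rw [WN_eq hV hq hL hu (mem_range.1 hh)]
  · intro u hu
    by_cases hs : u ≤ K ∨ nl u ≠ 0
    · rw [sum_congr rfl fun h hh => by rw [tN_src hV u hu hs h (mem_range.1 hh)]]
      simp only [Nat.cast_ite, Nat.cast_one, Nat.cast_zero, ite_mul, one_mul, zero_mul]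
      rw [sum_ite_eq (range (2 ^ lam)) u, if_pos (mem_range.2 hu)]
    · rw [sum_congr rfl fun h hh => by rw [tN_lin hV u hs h]]
      push Not at hs
      rw [hV.val_lin u hs.1 hu hs.2, ZMod.natCast_mod]
      push_cast
      rfl
  · rw [tN_lin hV u hs] at h1
    exact hV.le_lt u h h1

/-- Sums over the sources. -/
theorem sum_src {g : ℕ} (hK : K < g) (f : ℕ → ZMod q) :
    (∑ h ∈ range g, if h ≤ K ∨ nl h ≠ 0 then f h else 0) =
      ∑ h ∈ range (K + 1), f h + ∑ h ∈ range g, (nl h : ZMod q) * f h := by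
  have h1 : ∑ h ∈ range (K + 1), f h = ∑ h ∈ range g, if h ≤ K then f h else 0 := by
    rw [← sum_filter]
    refine sum_congr ?_ fun _ _ => rfl
    ext h
    simp only [mem_range, mem_filter]
    omega
  rw [h1, ← sum_add_distrib]
  refine sum_congr rfl fun h _ => ?_
  have h2 := hV.nl_le h
  by_cases h3 : nl h = 0
  · rw [h3, Nat.cast_zero, zero_mul, add_zero]
    by_cases h4 : h ≤ K
    · rw [if_pos h4, if_pos (Or.inl h4)]
    · rw [if_neg h4, if_neg]
      rintro (h5 | h5)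
      · exact h4 h5
      · exact h5 rfl
  · have h4 : nl h = 1 := by omega
    have h5 := (hV.nl_lt h h3).1
    rw [if_pos (Or.inr h3), if_neg (by omega), h4, Nat.cast_one, one_mul, zero_add]

theorem coef_sum (hq : 0 < q) (hL : q ≤ 2 ^ lam) {s g : ℕ} (hK : K < g) (hg : g < 2 ^ lam) :
    ((∑ h ∈ range (2 ^ lam), ifz s (le g h) (ri g h) * V h : ℕ) : ZMod q) =
      ∑ h ∈ range (K + 1), (coefN q lam K nl le ri s g h : ZMod q) * (inp h : ZMod q) +
      ∑ r ∈ range (rankN nl g), (coefN q lam K nl le ri s g (nthN (2 ^ lam) nl r) : ZMod q) *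
        (V (nthN (2 ^ lam) nl r) : ZMod q) := by
  have hlow : ∀ h, ifz s (le g h) (ri g h) ≠ 0 → h < g := by
    intro h hh
    by_cases hs : s = 0
    · rw [hs, ifz_zero] at hh
      exact hV.le_lt g h hh
    · rw [ifz_ne hs] at hh
      exact hV.ri_lt g h hh
  have h1 : ((∑ h ∈ range (2 ^ lam), ifz s (le g h) (ri g h) * V h : ℕ) : ZMod q) =
      ∑ h ∈ range (2 ^ lam), if h ≤ K ∨ nl h ≠ 0 then
        (coefN q lam K nl le ri s g h : ZMod q) * (V h : ZMod q) else 0 := by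
    push_cast
    rw [sum_congr rfl fun z hz => by rw [WN_val hV hq hL (mem_range.1 hz)]]
    simp only [mul_sum]
    rw [sum_comm]
    refine sum_congr rfl fun h _ => ?_
    by_cases h2 : h ≤ K ∨ nl h ≠ 0
    · simp only [if_pos h2]
      unfold coefN
      rw [ZMod.natCast_mod]
      push_cast
      rw [sum_mul]
      refine sum_congr rfl fun z _ => ?_
      rw [mul_assoc]
    · simp only [if_neg h2, mul_zero, sum_const_zero]
  have h3 : ∀ h < 2 ^ lam, g ≤ h → (coefN q lam K nl le ri s g h : ZMod q) = 0 := by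
    intro h hh hgh
    unfold coefN
    rw [ZMod.natCast_mod]
    push_cast
    refine sum_eq_zero fun z hz => ?_
    by_cases h4 : ifz s (le g z) (ri g z) = 0
    · rw [h4, Nat.cast_zero, zero_mul]
    · have h5 := hlow z h4
      rw [WN_low hV hq hL (mem_range.1 hz) hh (by omega), mul_zero]
  have h4 : (∑ h ∈ range (2 ^ lam), if h ≤ K ∨ nl h ≠ 0 then
        (coefN q lam K nl le ri s g h : ZMod q) * (V h : ZMod q) else 0) =
      ∑ h ∈ range g, if h ≤ K ∨ nl h ≠ 0 then
        (coefN q lam K nl le ri s g h : ZMod q) * (V h : ZMod q) else 0 := by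
    symm
    refine sum_subset (range_subset_range.2 hg.le) fun h hh hh2 => ?_
    rw [mem_range] at hh hh2
    rw [h3 h hh (by omega), zero_mul, ite_self]
  rw [h1, h4, sum_src hV hK, sum_nl hV.nl_le hg.le]
  congr 1
  refine sum_congr rfl fun h hh => ?_
  rw [mem_range] at hh
  rw [hV.val_inp h (by omega)]

/-- **The values of the nonlinear gates.** -/
theorem V_nth (hq : 0 < q) (hL : q ≤ 2 ^ lam) (hN : N ≤ 2 ^ lam) : ∀ r < rankN nl N,
    V (nthN (2 ^ lam) nl r) = sig q (opR lam nl opf) (bN q lam K nl le ri inp)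
      (cN q lam K nl le ri) r := by
  intro r
  induction r using Nat.strong_induction_on with
  | _ r ih =>
    intro hr
    obtain ⟨g, hg, hg1, hgr⟩ := exists_rank hV.nl_le N r hr
    have hnth : nthN (2 ^ lam) nl r = g := by
      rw [← hgr]
      exact nthN_rank (by omega) hg1
    have hK := (hV.nl_lt g (by omega)).1
    rw [sig_eq, hnth, hV.val_nl g (by omega)]
    have key : ∀ s, (∑ h ∈ range (2 ^ lam), ifz s (le g h) (ri g h) * V h) % q =
        (bN q lam K nl le ri inp s r + ∑ i ∈ range r, cN q lam K nl le ri s r i *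
          sig q (opR lam nl opf) (bN q lam K nl le ri inp) (cN q lam K nl le ri) i) % q := by
      intro s
      rw [← ZMod.natCast_eq_natCast_iff', coef_sum hV hq hL hK (by omega), hgr]
      unfold bN cN
      rw [Nat.cast_add, ZMod.natCast_mod]
      push_cast
      rw [hnth]
      congr 1
      refine sum_congr rfl fun i hi => ?_
      rw [mem_range] at hi
      rw [ih i hi (by omega)]
      rfl
    have k0 := key 0
    have k1 := key 1
    simp only [ifz_zero] at k0
    simp only [ifz_ne one_ne_zero] at k1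
    rw [k0, k1]
    unfold opR
    rw [hnth]

/-- **The output.** -/
theorem out_eq (hq : 0 < q) (hL : q ≤ 2 ^ lam) (hN : N ≤ 2 ^ lam) (hN0 : 0 < N)
    (hK : K < 2 ^ lam) {σ : ℕ → ℕ}
    (hσ : ∀ r < rankN nl N, σ r = V (nthN (2 ^ lam) nl r)) :
    outS q lam K N nl le inp σ = V (N - 1) % q := by
  unfold outS
  rw [← Nat.add_mod, ← ZMod.natCast_eq_natCast_iff', WN_val hV hq hL (show N - 1 < 2 ^ lam by omega),
    sum_src hV hK, sum_nl hV.nl_le le_rfl]
  have h1 : rankN nl (2 ^ lam) = rankN nl N := by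
    unfold rankN
    refine (sum_subset (range_subset_range.2 hN) fun h _ hh => ?_).symm
    rw [mem_range] at hh
    by_contra h2
    have := (hV.nl_lt h h2).2
    omega
  rw [h1]
  push_cast
  congr 1
  · refine sum_congr rfl fun h hh => ?_
    rw [mem_range] at hh
    rw [hV.val_inp h (by omega)]
  · refine sum_congr rfl fun r hr => ?_
    rw [hσ r (mem_range.1 hr)]

end

end Pool.Agent.Helper78.Xor
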