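import Pool.Agent.Helper65.LinSpace.Defs

/-!
# Uniform circuits with free linear gates and few nonlinear gates: definitions
-/

namespace Pool.Agent.Helper78.Xor

open Pool.Agent.Helper65.LinSpace

/-- The self-delimiting code `1 a₁ 1 a₂ … 1 aₗ 0` of the word `a₁ a₂ … aₗ`. -/
def sd : List Bool → List Bool
  | [] => [false]
  | b :: w => true :: b :: sd w

/-- The binary code of a pair of numbers. -/
def w2 (n g : ℕ) : List Bool := sd n.bits ++ g.bits

/-- The binary code of a triple of numbers. -/
def w3 (n g h : ℕ) : List Bool := sd n.bits ++ (sd g.bits ++ h.bits)

/-- The binary code of four numbers. -/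
def w4 (n g a b : ℕ) : List Bool := sd n.bits ++ (sd g.bits ++ (sd a.bits ++ b.bits))

/-- A uniform family of circuits, given by its direct connection languages: `nonlin` describes the
nonlinear gates, `left` and `right` the wires, and `op` the functions computed by the nonlinear
gates. The codes of the numbers are binary, so that linear space means space `O(log n)`. -/
structure Circ where
  nonlin : Set (List Bool)
  left : Set (List Bool)
  right : Set (List Bool)
  op : Set (List Bool)
  nonlin_lin : DLINSPACE nonlin
  left_lin : DLINSPACE left
  right_lin : DLINSPACE right
  op_lin : DLINSPACE op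

/-- The sum modulo `m` of the values `v h` of the gates `h < g` which are joined to the gate `g` by
a wire from `A`. The fan-in is unbounded. -/
noncomputable def wireSum (A : Set (List Bool)) (n m g : ℕ) (v : ℕ → ℕ) : ℕ :=
  open Classical in (∑ h ∈ (Finset.range g).filter fun h => w3 n g h ∈ A, v h) % m

/-- The value of the gate `g` on the input `x` and the guess `y`, when the gates with smaller
numbers have the values `v`; all arithmetic is modulo `m`. The gate `0` is the constant `1`, then
come the input gates. A nonlinear gate computes an arbitrary function with values `0` and `1` of the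
two sums over its left and its right wires. All other gates are linear: their value is the sum over
their left wires. -/
noncomputable def Circ.gate (F : Circ) (m : ℕ) (x y : List Bool) (v : ℕ → ℕ) (g : ℕ) : ℕ :=
  open Classical in
  if g = 0 then 1
  else if g ≤ x.length then (x.getD (g - 1) false).toNat
  else if g ≤ x.length + y.length then (y.getD (g - 1 - x.length) false).toNat
  else if w2 x.length g ∈ F.nonlin then
    if w4 x.length g (wireSum F.left x.length m g v) (wireSum F.right x.length m g v) ∈ F.op
    then 1 else 0
  else wireSum F.left x.length m g v

/-- The values of the gates with numbers less than `t`. -/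
noncomputable def Circ.vals (F : Circ) (m : ℕ) (x y : List Bool) : ℕ → ℕ → ℕ
  | 0 => fun _ => 0
  | t + 1 => Function.update (F.vals m x y t) t (F.gate m x y (F.vals m x y t) t)

/-- `F` computes the language `L` with `(n + 2) ^ k` gates, arithmetic modulo `m (n + 2) ^ a`, at
most `C (n + 1) ^ (2 - ε)` nonlinear gates, and `c n` nondeterministic input bits. The output is the
last gate, and a word is accepted if its value is `1` for some guess. -/
def Circ.Computes (F : Circ) (c k m a : ℕ) (C ε : ℝ) (L : Set (List Bool)) : Prop :=
  (∀ n : ℕ, open Classical in
    (((Finset.range ((n + 2) ^ k)).filter fun g => w2 n g ∈ F.nonlin).card : ℝ) ≤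
      C * ((n : ℝ) + 1) ^ (2 - ε)) ∧
  ∀ x, x ∈ L ↔ ∃ y : List Bool, y.length = c * x.length ∧
    F.vals (m * (x.length + 2) ^ a) x y ((x.length + 2) ^ k) ((x.length + 2) ^ k - 1) = 1

end Pool.Agent.Helper78.Xor
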