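import Pool.Agent.Helper78.Xor.Abs
import Pool.Agent.Helper78.Xor.Defs

/-!
# Linear space and parameters
-/

namespace Pool.Agent.Helper78.Xor

open Pool.Agent.Helper65.LinSpace Finset
open Pool.Agent.Helper78.Mpc

variable {α β : Type} [Ctx α] [Ctx β]

/-- Linear space for functions of one number with parameters. -/
def LS1 (b : α → ℕ → ℕ) : Prop := LS (fun z : α × ℕ => b z.1 z.2)

theorem LS1.app {b : α → ℕ → ℕ} (hb : LS1 b) {f : β → α} {x : β → ℕ} (hf : LS f)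
    (hx : LS x) : LS (fun z => b (f z) (x z)) :=
  LS.comp (g := fun z : α × ℕ => b z.1 z.2) (f := fun z => (f z, x z)) hb
    (by fun_prop)

/-- The bounds for the parameters of the matrix powers. -/
structure Bd (q lam C : α → ℕ) : Prop where
  hq : LS q
  hlam : LS lam
  hC : LS C
  q_pos : ∀ z, 0 < q z
  b3 : ∀ z, pL (lam z) ^ (3 * lam z) ≤ C z
  b4 : ∀ z, MM (pL (lam z)) 2 ^ (lam z * (lam z + 1)) ≤ C z
  b5 : ∀ z, 2 ^ lam z ≤ C z

theorem Bd.comp {q lam C : α → ℕ} (h : Bd q lam C) {f : β → α} (hf : LS f) :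
    Bd (fun z => q (f z)) (fun z => lam (f z)) (fun z => C (f z)) where
  hq := LS.comp h.hq hf
  hlam := LS.comp h.hlam hf
  hC := LS.comp h.hC hf
  q_pos z := h.q_pos (f z)
  b3 z := h.b3 (f z)
  b4 z := h.b4 (f z)
  b5 z := h.b5 (f z)

theorem Bd.pow {q lam C : α → ℕ} (h : Bd q lam C) : LS (fun z => 2 ^ lam z) :=
  LS.pow_of_le (f := fun _ => 2) (by fun_prop) h.hlam h.hC h.b5

section

variable {q lam C K N : α → ℕ} {nl : α → ℕ → ℕ} {le ri : α → ℕ → ℕ → ℕ} {inp σ : α → ℕ → ℕ}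
  {opf : α → ℕ → ℕ → ℕ → ℕ}

theorem LS.tN (hK : LS K) (hnl : LS1 nl) (hle : LS2 le) :
    LS2 (fun z => tN (K z) (nl z) (le z)) := by
  unfold Xor.tN
  exact LS.ifz (LS.add (by fun_prop) (hnl.app (by fun_prop) (by fun_prop)))
    (hle.app (by fun_prop) (by fun_prop) (by fun_prop)) (by fun_prop)

theorem LS.WN (hb : Bd q lam C) (hK : LS K) (hnl : LS1 nl) (hle : LS2 le) :
    LS2 (fun z => WN (q z) (lam z) (K z) (nl z) (le z)) := by
  have hb' : Bd (α := α × ℕ × ℕ) (fun w => q w.1) (fun w => lam w.1) (fun w => C w.1) :=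
    hb.comp (f := fun w : α × ℕ × ℕ => w.1) (by fun_prop)
  unfold Xor.WN
  refine LS.VW (α := α × ℕ × ℕ) (q := fun w => q w.1) (L := fun w => lam w.1)
    (lam := fun w => lam w.1) (h := fun w => lam w.1 * (lam w.1 + 1))
    (u := fun w => Xor.pack4 (2 ^ lam w.1) (lam w.1) 0 w.2.1 w.2.2) (C := fun w => C w.1)
    (t := fun w => Xor.tN (K w.1) (nl w.1) (le w.1)) hb'.hq hb'.hlam hb'.hlam ?_ ?_ hb'.hC ?_
    (fun z => hb.b3 z.1) (fun z => hb.b4 z.1) (fun z => hb.b5 z.1)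
  · exact LS.mul hb'.hlam (LS.add hb'.hlam (LS.const 1))
  · exact LS.pack4 hb'.pow hb'.hlam (LS.const 0) (by fun_prop) (by fun_prop)
  · exact (LS.tN hK hnl hle).app (f := fun w : (α × ℕ × ℕ) × ℕ × ℕ => w.1.1)
      (x := fun w => w.2.1) (y := fun w => w.2.2) (by fun_prop) (by fun_prop) (by fun_prop)

theorem LS.rankN (hnl : LS1 nl) (h1 : ∀ z g, nl z g ≤ 1) :
    LS1 (fun z g => rankN (nl z) g) := by
  unfold Xor.rankN
  exact LS.sum_le (α := α × ℕ) (N := fun w => w.2) (B := fun _ => 1) (f := fun w h => nl w.1 h)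
    (hnl.app (by fun_prop) (by fun_prop)) (by fun_prop) (by fun_prop) (fun w h _ => h1 w.1 h)

theorem LS.nthN {M : α → ℕ} (hM : LS M) (hnl : LS1 nl) (h1 : ∀ z g, nl z g ≤ 1) :
    LS1 (fun z r => nthN (M z) (nl z) r) := by
  unfold Xor.nthN
  refine LS.sum_le (α := α × ℕ) (N := fun w => M w.1) (B := fun _ => 1)
    (f := fun w g => le01 (Xor.rankN (nl w.1) (g + 1)) w.2) ?_ (by fun_prop) (by fun_prop) ?_
  · exact LS.le01 ((LS.rankN hnl h1).app (f := fun w : (α × ℕ) × ℕ => w.1.1) (by fun_prop)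
      (by fun_prop)) (by fun_prop)
  · intro w g _
    unfold le01
    split_ifs <;> omega

theorem LS.coefN (hb : Bd q lam C) (hK : LS K) (hnl : LS1 nl) (hle : LS2 le) (hri : LS2 ri) :
    LS3 (fun z => coefN (q z) (lam z) (K z) (nl z) (le z) (ri z)) := by
  unfold Xor.coefN
  refine LS.sumMod (α := α × ℕ × ℕ × ℕ) (N := fun w => 2 ^ lam w.1) (p := fun w => q w.1)
    (f := fun w t => ifz w.2.1 (le w.1 w.2.2.1 t) (ri w.1 w.2.2.1 t) *
      Xor.WN (q w.1) (lam w.1) (K w.1) (nl w.1) (le w.1) t w.2.2.2) ?_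
    (hb.comp (f := fun w : α × ℕ × ℕ × ℕ => w.1) (by fun_prop)).pow
    (hb.comp (f := fun w : α × ℕ × ℕ × ℕ => w.1) (by fun_prop)).hq (fun w => hb.q_pos w.1)
  refine LS.mul (LS.ifz (by fun_prop) (hle.app (by fun_prop) (by fun_prop) (by fun_prop))
    (hri.app (by fun_prop) (by fun_prop) (by fun_prop))) ?_
  exact (LS.WN hb hK hnl hle).app (f := fun w : (α × ℕ × ℕ × ℕ) × ℕ => w.1.1) (x := fun w => w.2)
    (y := fun w => w.1.2.2.2) (by fun_prop) (by fun_prop) (by fun_prop)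

theorem LS.bN (hb : Bd q lam C) (hK : LS K) (hnl : LS1 nl) (h1 : ∀ z g, nl z g ≤ 1)
    (hle : LS2 le) (hri : LS2 ri) (hinp : LS1 inp) :
    LS2 (fun z => bN (q z) (lam z) (K z) (nl z) (le z) (ri z) (inp z)) := by
  unfold Xor.bN
  refine LS.sumMod (α := α × ℕ × ℕ) (N := fun w => K w.1 + 1) (p := fun w => q w.1)
    (f := fun w h => Xor.coefN (q w.1) (lam w.1) (K w.1) (nl w.1) (le w.1) (ri w.1) w.2.1
      (Xor.nthN (2 ^ lam w.1) (nl w.1) w.2.2) h * inp w.1 h) ?_ (by fun_prop)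
    (hb.comp (f := fun w : α × ℕ × ℕ => w.1) (by fun_prop)).hq (fun w => hb.q_pos w.1)
  refine LS.mul ?_ (hinp.app (by fun_prop) (by fun_prop))
  exact (LS.coefN hb hK hnl hle hri).app (f := fun w : (α × ℕ × ℕ) × ℕ => w.1.1)
    (x := fun w => w.1.2.1) (y := fun w => Xor.nthN (2 ^ lam w.1.1) (nl w.1.1) w.1.2.2)
    (t := fun w => w.2) (by fun_prop) (by fun_prop)
    ((LS.nthN hb.pow hnl h1).app (f := fun w : (α × ℕ × ℕ) × ℕ => w.1.1) (by fun_prop)
      (by fun_prop)) (by fun_prop)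

theorem LS.cN (hb : Bd q lam C) (hK : LS K) (hnl : LS1 nl) (h1 : ∀ z g, nl z g ≤ 1)
    (hle : LS2 le) (hri : LS2 ri) :
    LS3 (fun z => cN (q z) (lam z) (K z) (nl z) (le z) (ri z)) := by
  unfold Xor.cN
  exact (LS.coefN hb hK hnl hle hri).app (f := fun w : α × ℕ × ℕ × ℕ => w.1)
    (x := fun w => w.2.1) (y := fun w => Xor.nthN (2 ^ lam w.1) (nl w.1) w.2.2.1)
    (t := fun w => Xor.nthN (2 ^ lam w.1) (nl w.1) w.2.2.2) (by fun_prop) (by fun_prop)
    ((LS.nthN hb.pow hnl h1).app (f := fun w : α × ℕ × ℕ × ℕ => w.1) (by fun_prop) (by fun_prop))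
    ((LS.nthN hb.pow hnl h1).app (f := fun w : α × ℕ × ℕ × ℕ => w.1) (by fun_prop) (by fun_prop))

theorem LS.opR (hb : Bd q lam C) (hnl : LS1 nl) (h1 : ∀ z g, nl z g ≤ 1) (hopf : LS3 opf) :
    LS3 (fun z => opR (lam z) (nl z) (opf z)) := by
  unfold Xor.opR
  exact hopf.app (f := fun w : α × ℕ × ℕ × ℕ => w.1)
    (x := fun w => Xor.nthN (2 ^ lam w.1) (nl w.1) w.2.1) (y := fun w => w.2.2.1)
    (t := fun w => w.2.2.2) (by fun_prop)
    ((LS.nthN hb.pow hnl h1).app (f := fun w : α × ℕ × ℕ × ℕ => w.1) (by fun_prop) (by fun_prop))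
    (by fun_prop) (by fun_prop)

theorem LS.outS (hb : Bd q lam C) (hK : LS K) (hN : LS N) (hnl : LS1 nl)
    (h1 : ∀ z g, nl z g ≤ 1) (hle : LS2 le) (hinp : LS1 inp) (hσ : LS1 σ) :
    LS (fun z => outS (q z) (lam z) (K z) (N z) (nl z) (le z) (inp z) (σ z)) := by
  have hW := LS.WN hb hK hnl hle
  unfold Xor.outS
  refine LS.mod (LS.add ?_ ?_) hb.hq
  · refine LS.sumMod (N := fun w => K w + 1) (p := q)
      (f := fun w h => Xor.WN (q w) (lam w) (K w) (nl w) (le w) (N w - 1) h * inp w h) ?_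
      (by fun_prop) hb.hq hb.q_pos
    exact LS.mul (hW.app (f := fun w : α × ℕ => w.1) (x := fun w => N w.1 - 1)
      (y := fun w => w.2) (by fun_prop) (by fun_prop) (by fun_prop))
      (hinp.app (by fun_prop) (by fun_prop))
  · refine LS.sumMod (N := fun w => Xor.rankN (nl w) (N w)) (p := q)
      (f := fun w r => Xor.WN (q w) (lam w) (K w) (nl w) (le w) (N w - 1)
        (Xor.nthN (2 ^ lam w) (nl w) r) * σ w r) ?_
      ((LS.rankN hnl h1).app (f := fun w : α => w) (by fun_prop) hN) hb.hq hb.q_pos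
    exact LS.mul (hW.app (f := fun w : α × ℕ => w.1) (x := fun w => N w.1 - 1)
      (y := fun w => Xor.nthN (2 ^ lam w.1) (nl w.1) w.2) (by fun_prop) (by fun_prop)
      ((LS.nthN hb.pow hnl h1).app (f := fun w : α × ℕ => w.1) (by fun_prop) (by fun_prop)))
      (hσ.app (by fun_prop) (by fun_prop))

end

/-! ### Codes -/

/-- The number of the code of a pair. -/
def w2N (n g : ℕ) : ℕ := catN (sdN (bitsN n)) (bitsN g)

/-- The number of the code of a triple. -/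
def w3N (n g h : ℕ) : ℕ := catN (sdN (bitsN n)) (catN (sdN (bitsN g)) (bitsN h))

/-- The number of the code of four numbers. -/
def w4N (n g a b : ℕ) : ℕ :=
  catN (sdN (bitsN n)) (catN (sdN (bitsN g)) (catN (sdN (bitsN a)) (bitsN b)))

theorem sd_eq (w : List Bool) : sd w = Mpc.sd w := by
  induction w with
  | nil => rfl
  | cons b w ih =>
    show true :: b :: sd w = true :: b :: Mpc.sd w
    rw [ih]

theorem w2N_eq (n g : ℕ) : w2N n g = num (w2 n g) := by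
  unfold w2N w2
  rw [bitsN_eq, bitsN_eq, sdN_num, catN_num, sd_eq]

theorem w3N_eq (n g h : ℕ) : w3N n g h = num (w3 n g h) := by
  unfold w3N w3
  rw [bitsN_eq, bitsN_eq, bitsN_eq, sdN_num, sdN_num, catN_num, catN_num, sd_eq, sd_eq]

theorem w4N_eq (n g a b : ℕ) : w4N n g a b = num (w4 n g a b) := by
  unfold w4N w4
  rw [bitsN_eq, bitsN_eq, bitsN_eq, bitsN_eq, sdN_num, sdN_num, sdN_num, catN_num, catN_num,
    catN_num, sd_eq, sd_eq, sd_eq]

theorem length_w2 {n g l : ℕ} (hn : n < 2 ^ l) (hg : g < 2 ^ l) :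
    (w2 n g).length ≤ 7 * l + 3 := by
  have h1 := length_bits hn
  have h2 := length_bits hg
  unfold w2
  simp only [List.length_append, sd_eq, length_sd]
  omega

theorem length_w3 {n g h l : ℕ} (hn : n < 2 ^ l) (hg : g < 2 ^ l) (hh : h < 2 ^ l) :
    (w3 n g h).length ≤ 7 * l + 3 := by
  have h1 := length_bits hn
  have h2 := length_bits hg
  have h3 := length_bits hh
  unfold w3
  simp only [List.length_append, sd_eq, length_sd]
  omega

theorem length_w4 {n g a b l : ℕ} (hn : n < 2 ^ l) (hg : g < 2 ^ l) (ha : a < 2 ^ l)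
    (hb : b < 2 ^ l) : (w4 n g a b).length ≤ 7 * l + 3 := by
  have h1 := length_bits hn
  have h2 := length_bits hg
  have h3 := length_bits ha
  have h4 := length_bits hb
  unfold w4
  simp only [List.length_append, sd_eq, length_sd]
  omega

/-- The indicator of the nonlinear gates. -/
def nlF (e Λ β n K N g : ℕ) : ℕ := lt01 K g * (lt01 g N * univ e Λ β (w2N n g))

/-- The indicator of the wires. -/
def wiF (e Λ β n N g h : ℕ) : ℕ := lt01 g N * (lt01 h g * univ e Λ β (w3N n g h))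

/-- The values of the nonlinear functions. -/
def opF (e Λ β n g s t : ℕ) : ℕ := univ e Λ β (w4N n g s t)

/-- The values of the input gates. -/
def inpF (x y n h : ℕ) : ℕ :=
  ifz h 1 (ifz (lt01 n h) (dig 2 x (h - 1)) (dig 2 y (h - 1 - n)))

theorem lt01_le (x y : ℕ) : lt01 x y ≤ 1 := by
  unfold lt01
  split_ifs <;> omega

theorem nlF_le (e Λ β n K N g : ℕ) : nlF e Λ β n K N g ≤ 1 := by
  unfold nlF
  have h1 := lt01_le K g
  have h2 := lt01_le g N
  have h3 := univ_lt e Λ β (w2N n g)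
  calc _ ≤ 1 * (1 * 1) := Nat.mul_le_mul h1 (Nat.mul_le_mul h2 (by omega))
    _ = 1 := rfl

theorem opF_lt (e Λ β n g s t : ℕ) : opF e Λ β n g s t < 2 := univ_lt _ _ _ _

section

variable {e Λ b n K N x y C : α → ℕ}

theorem LS.nlF (he : LS e) (hΛ : LS Λ) (hb : LS b) (hn : LS n) (hK : LS K) (hN : LS N) (hC : LS C)
    (hb0 : ∀ a, 0 < b a) (hbC : ∀ a, b a ^ Λ a ≤ C a) :
    LS1 (fun z => nlF (e z) (Λ z) (b z) (n z) (K z) (N z)) := by
  unfold Xor.nlF w2N
  refine LS.mul (by fun_prop) (LS.mul (by fun_prop) ?_)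
  exact LS.univ (α := α × ℕ) (e := fun w => e w.1) (Λ := fun w => Λ w.1) (β := fun w => b w.1)
    (x := fun w => catN (sdN (bitsN (n w.1))) (bitsN w.2)) (C := fun w => C w.1) (by fun_prop)
    (by fun_prop) (by fun_prop) (by fun_prop) (by fun_prop) (fun w => hb0 w.1) (fun w => hbC w.1)

theorem LS.wiF (he : LS e) (hΛ : LS Λ) (hb : LS b) (hn : LS n) (hN : LS N) (hC : LS C)
    (hb0 : ∀ a, 0 < b a) (hbC : ∀ a, b a ^ Λ a ≤ C a) :
    LS2 (fun z => wiF (e z) (Λ z) (b z) (n z) (N z)) := by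
  unfold Xor.wiF w3N
  refine LS.mul (by fun_prop) (LS.mul (by fun_prop) ?_)
  exact LS.univ (α := α × ℕ × ℕ) (e := fun w => e w.1) (Λ := fun w => Λ w.1)
    (β := fun w => b w.1)
    (x := fun w => catN (sdN (bitsN (n w.1))) (catN (sdN (bitsN w.2.1)) (bitsN w.2.2)))
    (C := fun w => C w.1) (by fun_prop)
    (by fun_prop) (by fun_prop) (by fun_prop) (by fun_prop) (fun w => hb0 w.1) (fun w => hbC w.1)

theorem LS.opF (he : LS e) (hΛ : LS Λ) (hb : LS b) (hn : LS n) (hC : LS C)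
    (hb0 : ∀ a, 0 < b a) (hbC : ∀ a, b a ^ Λ a ≤ C a) :
    LS3 (fun z => opF (e z) (Λ z) (b z) (n z)) := by
  unfold Xor.opF w4N
  exact LS.univ (α := α × ℕ × ℕ × ℕ) (e := fun w => e w.1) (Λ := fun w => Λ w.1)
    (β := fun w => b w.1)
    (x := fun w => catN (sdN (bitsN (n w.1))) (catN (sdN (bitsN w.2.1))
      (catN (sdN (bitsN w.2.2.1)) (bitsN w.2.2.2))))
    (C := fun w => C w.1) (by fun_prop)
    (by fun_prop) (by fun_prop) (by fun_prop) (by fun_prop) (fun w => hb0 w.1) (fun w => hbC w.1)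

theorem LS.inpF (hx : LS x) (hy : LS y) (hn : LS n) :
    LS1 (fun z => inpF (x z) (y z) (n z)) := by
  unfold Xor.inpF LS1
  fun_prop

end

/-! ### Parameters -/

/-- The number of bits of a vector. -/
def LX (n : ℕ) : ℕ := 2 * RR n * la n

/-- The exponent of the bound. -/
def cX : ℕ := 20000

/-- The bound for all numbers. -/
def CX (x : ℕ) : ℕ := (x + 2) ^ (2 * cX)

/-- The modulus. -/
def QX (m a n x : ℕ) : ℕ := max 1 (min (m * capPow (n + 2) a (CX x)) (2 ^ la n))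

theorem two_pow_le_CX {x t : ℕ} (h : t ≤ 20000 * (Nat.log 2 x + 1)) : 2 ^ t ≤ CX x := by
  have h' : t ≤ cX * (Nat.log 2 x + 1) := h
  exact (Nat.pow_le_pow_right (by norm_num) h').trans (two_pow_log_le x cX)

theorem pow_five_le (l : ℕ) : l ^ 5 ≤ 300 * 2 ^ l := by
  rcases Nat.lt_or_ge l 8 with h | h
  · interval_cases l <;> norm_num
  · induction l, h using Nat.le_induction with
    | base => norm_num
    | succ l hl ih =>
      have h1 : (l + 1) ^ 5 ≤ 2 * l ^ 5 := by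
        obtain ⟨d, rfl⟩ := Nat.exists_eq_add_of_le hl
        ring_nf
        linarith [Nat.zero_le d, Nat.zero_le (d ^ 2), Nat.zero_le (d ^ 3), Nat.zero_le (d ^ 4),
          Nat.zero_le (d ^ 5)]
      calc (l + 1) ^ 5 ≤ 2 * l ^ 5 := h1
        _ ≤ 2 * (300 * 2 ^ l) := Nat.mul_le_mul_left _ ih
        _ = 300 * 2 ^ (l + 1) := by ring

theorem two_pow_ll_le (n : ℕ) : 2 ^ ll n ≤ 2 * (n + 1) := by
  unfold ll
  rw [pow_succ, mul_comm]
  refine Nat.mul_le_mul_left _ ?_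
  rcases Nat.eq_zero_or_pos n with h | h
  · subst h
    simp
  · exact (Nat.pow_log_le_self 2 h.ne').trans (Nat.le_succ _)

theorem ll_five (n : ℕ) : ll n ^ 5 ≤ 600 * (n + 1) := by
  calc ll n ^ 5 ≤ 300 * 2 ^ ll n := pow_five_le _
    _ ≤ 300 * (2 * (n + 1)) := Nat.mul_le_mul_left _ (two_pow_ll_le n)
    _ = _ := by ring

theorem pL_le {L n : ℕ} (h : L ≤ 4 * (n + 1)) : pL L ≤ 2 ^ (ll n + 5) := by
  have h1 := (pL_spec L).2.2
  have h3 := lt_two_pow_ll n
  have e : 2 ^ (ll n + 5) = 32 * 2 ^ ll n := by ring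
  rw [e]
  omega

theorem MM_pL_le {L n : ℕ} (h : L ≤ 4 * (n + 1)) : MM (pL L) 2 ≤ 2 ^ (ll n + 8) := by
  have h1 := pL_le h
  have e : 2 ^ (ll n + 8) = 8 * 2 ^ (ll n + 5) := by ring
  unfold MM
  rw [e]
  have h2 : (pL L - 1) * (2 * 2 + 3) = 7 * (pL L - 1) := by ring
  omega

theorem la_b3 (x : ℕ) : pL (la (Nat.log 2 x)) ^ (3 * la (Nat.log 2 x)) ≤ CX x := by
  refine (Nat.pow_le_pow_left (pL_le (n := Nat.log 2 x) (ll_sq_le _)) _).trans ?_
  rw [← pow_mul]
  refine two_pow_le_CX ?_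
  generalize Nat.log 2 x = n
  have h1 := ll_five n
  have h3 := ll_pos n
  have h4 : ll n ^ 3 ≤ ll n ^ 5 := Nat.pow_le_pow_right h3 (by norm_num)
  calc (ll n + 5) * (3 * la n) ≤ (6 * ll n) * (3 * la n) := Nat.mul_le_mul_right _ (by omega)
    _ = 18 * ll n ^ 3 := by
      unfold la
      ring
    _ ≤ _ := by omega

theorem la_b4 (x : ℕ) :
    MM (pL (la (Nat.log 2 x))) 2 ^ (la (Nat.log 2 x) * (la (Nat.log 2 x) + 1)) ≤ CX x := by
  refine (Nat.pow_le_pow_left (MM_pL_le (n := Nat.log 2 x) (ll_sq_le _)) _).trans ?_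
  rw [← pow_mul]
  refine two_pow_le_CX ?_
  generalize Nat.log 2 x = n
  have h1 := ll_five n
  have h3 := ll_pos n
  have h5 : la n + 1 ≤ 2 * (ll n * ll n) := by
    unfold la
    have := Nat.mul_le_mul h3 h3
    omega
  have h6 : la n * (la n + 1) ≤ (ll n * ll n) * (2 * (ll n * ll n)) :=
    Nat.mul_le_mul le_rfl h5
  calc (ll n + 8) * (la n * (la n + 1)) ≤ (9 * ll n) * ((ll n * ll n) * (2 * (ll n * ll n))) :=
        Nat.mul_le_mul (by omega) h6
    _ = 18 * ll n ^ 5 := by ring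
    _ ≤ 20000 * (n + 1) := by omega

end Pool.Agent.Helper78.Xor
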