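import Pool.Agent.Helper78.Xor.SlpLS

/-!
# Powers of a matrix by trees
-/

namespace Pool.Agent.Helper78.Xor

open Pool.Agent.Helper65.LinSpace Finset
open Pool.Agent.Helper78.Mpc

/-! ### Iterated squares -/

/-- The entries of the iterated squares of the matrix `t`, modulo `q`. -/
def sqN (q M : ℕ) (t : ℕ → ℕ → ℕ) : ℕ → ℕ → ℕ → ℕ
  | 0, u, v => t u v % q
  | i + 1, u, v => (∑ z ∈ range M, sqN q M t i u z * sqN q M t i z v) % q

/-- The powers of the matrix. -/
def PM (q M : ℕ) (t : ℕ → ℕ → ℕ) : ℕ → ℕ → ℕ → ZMod q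
  | 0, u, v => if u = v then 1 else 0
  | i + 1, u, v => ∑ z ∈ range M, PM q M t i u z * (t z v : ZMod q)

section

variable {q M : ℕ} {t : ℕ → ℕ → ℕ}

theorem PM_add (a b u : ℕ) {v : ℕ} (hv : v < M) : PM q M t (a + b) u v =
    ∑ z ∈ range M, PM q M t a u z * PM q M t b z v := by
  induction b generalizing v with
  | zero =>
    simp only [PM, mul_ite, mul_one, mul_zero, add_zero]
    rw [sum_ite_eq' (range M) v, if_pos (mem_range.2 hv)]
  | succ b ih =>
    show ∑ z ∈ range M, PM q M t (a + b) u z * (t z v : ZMod q) = ∑ z ∈ range M,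
      PM q M t a u z * ∑ y ∈ range M, PM q M t b z y * (t y v : ZMod q)
    rw [sum_congr rfl fun z hz => by rw [ih (mem_range.1 hz)]]
    simp only [mul_sum, sum_mul]
    rw [sum_comm]
    simp only [mul_assoc]

theorem sqN_cast (i : ℕ) {u v : ℕ} (hu : u < M) (hv : v < M) :
    (sqN q M t i u v : ZMod q) = PM q M t (2 ^ i) u v := by
  induction i generalizing u v with
  | zero =>
    show ((t u v % q : ℕ) : ZMod q) = ∑ z ∈ range M, (if u = z then (1 : ZMod q) else 0) *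
      (t z v : ZMod q)
    rw [ZMod.natCast_mod]
    simp only [ite_mul, one_mul, zero_mul]
    rw [sum_ite_eq (range M) u, if_pos (mem_range.2 hu)]
  | succ i ih =>
    show (((∑ z ∈ range M, sqN q M t i u z * sqN q M t i z v) % q : ℕ) : ZMod q) = _
    rw [ZMod.natCast_mod, pow_succ, mul_two, PM_add _ _ _ hv]
    push_cast
    refine sum_congr rfl fun z hz => ?_
    rw [ih hu (mem_range.1 hz), ih (mem_range.1 hz) hv]

theorem PM_fix {V : ℕ → ZMod q} (hV : ∀ u < M, V u = ∑ h ∈ range M, (t u h : ZMod q) * V h)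
    (m : ℕ) {u : ℕ} (hu : u < M) : V u = ∑ h ∈ range M, PM q M t m u h * V h := by
  induction m with
  | zero =>
    simp only [PM, ite_mul, one_mul, zero_mul]
    rw [sum_ite_eq (range M) u, if_pos (mem_range.2 hu)]
  | succ m ih =>
    rw [ih]
    simp only [PM, sum_mul]
    rw [sum_comm]
    refine sum_congr rfl fun z hz => ?_
    rw [hV z (mem_range.1 hz), mul_sum]
    refine sum_congr rfl fun y _ => ?_
    rw [mul_assoc]

variable {src : ℕ → Prop}

theorem PM_supp (hsrc : ∀ u < M, src u → ∀ h < M, t u h = if u = h then 1 else 0)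
    (hlow : ∀ u < M, ¬ src u → ∀ h < M, t u h ≠ 0 → h < u) (m : ℕ) {u h : ℕ} (hh : h < M)
    (h1 : PM q M t m u h ≠ 0) : h ≤ u ∧ (¬ src h → h + m ≤ u) := by
  induction m generalizing h with
  | zero =>
    simp only [PM] at h1
    split_ifs at h1 with h2
    · omega
    · exact absurd rfl h1
  | succ m ih =>
    obtain ⟨z, hz, h2⟩ := exists_ne_zero_of_sum_ne_zero h1
    rw [mem_range] at hz
    have h3 := ih hz (left_ne_zero_of_mul h2)
    have h4 : t z h ≠ 0 := by
      intro h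
      apply h2
      rw [h, Nat.cast_zero, mul_zero]
    by_cases hs : src z
    · have h5 := hsrc z hz hs h hh
      have h6 : z = h := by
        by_contra h6
        rw [if_neg h6] at h5
        exact h4 h5
      subst h6
      exact ⟨h3.1, fun h => absurd hs h⟩
    · have h5 := hlow z hz hs h hh h4
      have h6 := h3.2 hs
      exact ⟨by omega, fun _ => by omega⟩

/-- The coefficients of the expression of a value by the values of the sources. -/
theorem sqN_src {V : ℕ → ℕ} (hM : 0 < M)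
    (hV : ∀ u < M, (V u : ZMod q) = ∑ h ∈ range M, (t u h : ZMod q) * (V h : ZMod q))
    (hsrc : ∀ u < M, src u → ∀ h < M, t u h = if u = h then 1 else 0)
    (hlow : ∀ u < M, ¬ src u → ∀ h < M, t u h ≠ 0 → h < u) {i : ℕ} (hi : M ≤ 2 ^ i) {u : ℕ}
    (hu : u < M) [DecidablePred src] : (V u : ZMod q) =
      ∑ h ∈ range M, if src h then (sqN q M t i u h : ZMod q) * (V h : ZMod q) else 0 := by
  rw [PM_fix (V := fun u => (V u : ZMod q)) hV (2 ^ i) hu]
  refine sum_congr rfl fun h hh => ?_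
  rw [mem_range] at hh
  rw [sqN_cast i hu hh]
  split_ifs with h1
  · rfl
  · have h2 : PM q M t (2 ^ i) u h = 0 := by
      by_contra h2
      have := (PM_supp hsrc hlow _ hh h2).2 h1
      omega
    rw [h2, zero_mul]

theorem sqN_low (hsrc : ∀ u < M, src u → ∀ h < M, t u h = if u = h then 1 else 0)
    (hlow : ∀ u < M, ¬ src u → ∀ h < M, t u h ≠ 0 → h < u) (i : ℕ) {u h : ℕ} (hu : u < M)
    (hh : h < M) (h1 : u < h) : (sqN q M t i u h : ZMod q) = 0 := by
  rw [sqN_cast i hu hh]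
  by_contra h2
  have := (PM_supp hsrc hlow _ hh h2).1
  omega

end

/-! ### The tree -/

/-- The label of a node. -/
def pack4 (M l z u v : ℕ) : ℕ := ((l * M + z) * M + u) * M + v

/-- The children of the node `u`. -/
def chW (M lam u i : ℕ) : ℕ :=
  ifz (u / M / M / M)
    (ifz i (pack4 M lam 0 (u / M % M) (u / M / M % M)) (pack4 M lam 0 (u / M / M % M) (u % M)))
    (pack4 M (u / M / M / M - 1) ((2 * (u / M / M % M) + i) % M) (u / M % M) (u % M))

/-- The operation of the node `u`. -/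
def FW (q L M u x : ℕ) : ℕ :=
  (ifz (u / M / M / M) ((dig (2 ^ L) x 0 * dig (2 ^ L) x 1) % q)
    ((dig (2 ^ L) x 0 + dig (2 ^ L) x 1) % q)) % 2 ^ L

/-- The leaves. -/
def leafW (q L M : ℕ) (t : ℕ → ℕ → ℕ) (u : ℕ) : ℕ := t (u / M % M) (u % M) % q % 2 ^ L

/-- The value of a node. -/
def VW (q L lam : ℕ) (t : ℕ → ℕ → ℕ) (h u : ℕ) : ℕ :=
  gval 2 L (FW q L (2 ^ lam)) (leafW q L (2 ^ lam) t) (chW (2 ^ lam) lam) h u

theorem pack4_div {M z u v : ℕ} (l : ℕ) (hz : z < M) (hu : u < M) (hv : v < M) :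
    pack4 M l z u v / M / M / M = l ∧ pack4 M l z u v / M / M % M = z ∧
      pack4 M l z u v / M % M = u ∧ pack4 M l z u v % M = v := by
  unfold pack4
  rw [div_eq_block hv, mod_eq_block hv, div_eq_block hu, mod_eq_block hu, div_eq_block hz,
    mod_eq_block hz]
  exact ⟨rfl, rfl, rfl, rfl⟩

theorem pack4_lt {M z u v : ℕ} (l : ℕ) (hz : z < M) (hu : u < M) (hv : v < M) :
    pack4 M l z u v < (l + 1) * (M * M * M) := by
  unfold pack4
  have h1 : l * M + z + 1 ≤ (l + 1) * M := by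
    rw [Nat.succ_mul]
    omega
  have h2 : (l * M + z) * M + u + 1 ≤ (l + 1) * M * M := by
    have := Nat.mul_le_mul_right M h1
    rw [Nat.succ_mul] at this
    omega
  have h3 : ((l * M + z) * M + u) * M + v + 1 ≤ (l + 1) * M * M * M := by
    have := Nat.mul_le_mul_right M h2
    rw [Nat.succ_mul] at this
    omega
  calc _ < (l + 1) * M * M * M := h3
    _ = _ := by ring

theorem chW_le {M : ℕ} (hM : 0 < M) (lam u i : ℕ) :
    chW M lam u i ≤ u + (lam + 1) * (M * M * M) := by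
  have h1 : u % M < M := Nat.mod_lt _ hM
  have h2 : u / M % M < M := Nat.mod_lt _ hM
  have h3 : u / M / M % M < M := Nat.mod_lt _ hM
  have h4 : (2 * (u / M / M % M) + i) % M < M := Nat.mod_lt _ hM
  unfold chW
  by_cases c0 : u / M / M / M = 0
  · rw [c0, ifz_zero]
    by_cases c1 : i = 0
    · rw [c1, ifz_zero]
      have := pack4_lt lam hM h2 h3
      omega
    · rw [ifz_ne c1]
      have := pack4_lt lam hM h3 h1
      omega
  · rw [ifz_ne c0]
    have h5 := pack4_lt (u / M / M / M - 1) h4 h2 h1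
    have h6 : u / M / M / M - 1 + 1 = u / M / M / M :=
      Nat.sub_add_cancel (Nat.pos_of_ne_zero c0)
    rw [h6] at h5
    have h7 : u / M / M / M * (M * M * M) ≤ u := by
      rw [Nat.div_div_eq_div_mul, Nat.div_div_eq_div_mul, mul_assoc M M M]
      exact Nat.div_mul_le_self _ _
    omega

section

variable {q L lam : ℕ} {t : ℕ → ℕ → ℕ}

theorem VW_lt (h u : ℕ) : VW q L lam t h u < 2 ^ L :=
  gval_lt (fun _ _ => Nat.mod_lt _ (by positivity)) (fun _ => Nat.mod_lt _ (by positivity)) _ _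

theorem VW_succ (h u : ℕ) : VW q L lam t (h + 1) u =
    (ifz (u / 2 ^ lam / 2 ^ lam / 2 ^ lam) ((VW q L lam t h (chW (2 ^ lam) lam u 0) *
      VW q L lam t h (chW (2 ^ lam) lam u 1)) % q)
    ((VW q L lam t h (chW (2 ^ lam) lam u 0) +
      VW q L lam t h (chW (2 ^ lam) lam u 1)) % q)) % 2 ^ L := by
  have h0 : ∀ f : ℕ → ℕ, (∀ i, f i < 2 ^ L) → dig (2 ^ L) (tab (2 ^ L) 2 f) 0 = f 0 ∧
      dig (2 ^ L) (tab (2 ^ L) 2 f) 1 = f 1 := fun f hf =>
    ⟨dig_tab (fun i _ => hf i) (by norm_num), dig_tab (fun i _ => hf i) (by norm_num)⟩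
  obtain ⟨h1, h2⟩ := h0 (fun i => VW q L lam t h (chW (2 ^ lam) lam u i)) (fun _ => VW_lt _ _)
  show FW q L (2 ^ lam) u (tab (2 ^ L) 2 fun i => VW q L lam t h (chW (2 ^ lam) lam u i)) = _
  unfold FW
  rw [h1, h2]

theorem VW_chunk (hq : 0 < q) (hL : q ≤ 2 ^ L) {i h : ℕ}
    (hA : ∀ u < 2 ^ lam, ∀ v < 2 ^ lam, VW q L lam t h (pack4 (2 ^ lam) lam 0 u v) =
      sqN q (2 ^ lam) t i u v) {u v : ℕ} (hu : u < 2 ^ lam) (hv : v < 2 ^ lam) :
    ∀ l ≤ lam, ∀ z < 2 ^ (lam - l), VW q L lam t (h + l + 1) (pack4 (2 ^ lam) l z u v) =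
      (∑ s ∈ range (2 ^ l), sqN q (2 ^ lam) t i u (z * 2 ^ l + s) *
        sqN q (2 ^ lam) t i (z * 2 ^ l + s) v) % q := by
  have hpos : 0 < 2 ^ lam := by positivity
  intro l
  induction l with
  | zero =>
    intro _ z hz
    rw [Nat.sub_zero] at hz
    obtain ⟨h1, h2, h3, h4⟩ := pack4_div 0 hz hu hv
    have c0 : chW (2 ^ lam) lam (pack4 (2 ^ lam) 0 z u v) 0 = pack4 (2 ^ lam) lam 0 u z := by
      unfold chW
      rw [h1, h2, h3, h4, ifz_zero, ifz_zero]
    have c1 : chW (2 ^ lam) lam (pack4 (2 ^ lam) 0 z u v) 1 = pack4 (2 ^ lam) lam 0 z v := by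
      unfold chW
      rw [h1, h2, h3, h4, ifz_zero, ifz_ne one_ne_zero]
    rw [add_zero, VW_succ, h1, ifz_zero, c0, c1, hA u hu z hz, hA z hz v hv, pow_zero,
      sum_range_one, mul_one, add_zero]
    exact Nat.mod_eq_of_lt (lt_of_lt_of_le (Nat.mod_lt _ hq) hL)
  | succ l ih =>
    intro hl z hz
    have hpow : 2 ^ (lam - l) = 2 * 2 ^ (lam - (l + 1)) := by
      have : lam - l = lam - (l + 1) + 1 := by omega
      rw [this, pow_succ]
      ring
    have hle : 2 ^ (lam - l) ≤ 2 ^ lam := Nat.pow_le_pow_right (by norm_num) (Nat.sub_le _ _)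
    obtain ⟨h1, h2, h3, h4⟩ := pack4_div (l + 1) (show z < 2 ^ lam by omega) hu hv
    have c0 : ∀ i < 2, chW (2 ^ lam) lam (pack4 (2 ^ lam) (l + 1) z u v) i =
        pack4 (2 ^ lam) l (2 * z + i) u v := by
      intro i hi
      unfold chW
      rw [h1, h2, h3, h4, ifz_ne (Nat.succ_ne_zero l), Nat.mod_eq_of_lt (by omega),
        Nat.add_sub_cancel]
    rw [VW_succ, h1, ifz_ne (Nat.succ_ne_zero l), c0 0 (by norm_num), c0 1 (by norm_num)]
    have e : h + (l + 1) = h + l + 1 := by ring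
    rw [e, ih (by omega) (2 * z + 0) (by omega), ih (by omega) (2 * z + 1) (by omega),
      ← Nat.add_mod]
    have e3 : 2 ^ (l + 1) = 2 ^ l + 2 ^ l := by ring
    have e1 : ∀ s, z * (2 ^ l + 2 ^ l) + s = (2 * z + 0) * 2 ^ l + s := by
      intro s
      ring
    have e2 : ∀ s, (2 * z + 0) * 2 ^ l + (2 ^ l + s) = (2 * z + 1) * 2 ^ l + s := by
      intro s
      ring
    rw [e3, sum_range_add]
    simp only [e1, e2]
    exact Nat.mod_eq_of_lt (lt_of_lt_of_le (Nat.mod_lt _ hq) hL)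

theorem VW_sq (hq : 0 < q) (hL : q ≤ 2 ^ L) (i : ℕ) : ∀ u < 2 ^ lam, ∀ v < 2 ^ lam,
    VW q L lam t (i * (lam + 1)) (pack4 (2 ^ lam) lam 0 u v) = sqN q (2 ^ lam) t i u v := by
  have hpos : 0 < 2 ^ lam := by positivity
  induction i with
  | zero =>
    intro u hu v hv
    obtain ⟨h1, h2, h3, h4⟩ := pack4_div lam hpos hu hv
    rw [zero_mul]
    show t (pack4 (2 ^ lam) lam 0 u v / 2 ^ lam % 2 ^ lam) (pack4 (2 ^ lam) lam 0 u v % 2 ^ lam)
      % q % 2 ^ L = t u v % q
    rw [h3, h4]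
    exact Nat.mod_eq_of_lt (lt_of_lt_of_le (Nat.mod_lt _ hq) hL)
  | succ i ih =>
    intro u hu v hv
    have e : (i + 1) * (lam + 1) = i * (lam + 1) + lam + 1 := by ring
    rw [e, VW_chunk hq hL ih hu hv lam le_rfl 0 (by positivity)]
    show _ = (∑ z ∈ range (2 ^ lam), sqN q (2 ^ lam) t i u z * sqN q (2 ^ lam) t i z v) % q
    simp only [zero_mul, zero_add]

end

/-! ### Linear space -/

variable {α : Type} [Ctx α]

@[fun_prop]
theorem LS.pack4 {M l z u v : α → ℕ} (hM : LS M) (hl : LS l) (hz : LS z) (hu : LS u) (hv : LS v) :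
    LS (fun a => pack4 (M a) (l a) (z a) (u a) (v a)) := by
  unfold Xor.pack4
  fun_prop

@[fun_prop]
theorem LS.chW {M lam u i : α → ℕ} (hM : LS M) (hlam : LS lam) (hu : LS u) (hi : LS i) :
    LS (fun a => chW (M a) (lam a) (u a) (i a)) := by
  unfold Xor.chW
  fun_prop

theorem LS.VW {q L lam h u C : α → ℕ} {t : α → ℕ → ℕ → ℕ} (hq : LS q) (hL : LS L)
    (hlam : LS lam) (hh : LS h) (hu : LS u) (hC : LS C) (ht : LS2 t)
    (hb3 : ∀ z, pL (L z) ^ (3 * L z) ≤ C z)
    (hb4 : ∀ z, MM (pL (L z)) 2 ^ h z ≤ C z) (hb5 : ∀ z, 2 ^ lam z ≤ C z) :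
    LS (fun z => VW (q z) (L z) (lam z) (t z) (h z) (u z)) := by
  have hM : LS (fun z => 2 ^ lam z) := LS.pow_of_le (f := fun _ => 2) (by fun_prop) hlam hC hb5
  have hb6 : ∀ z, 2 ^ L z ≤ C z := fun z => by
    refine le_trans ?_ (hb3 z)
    refine (Nat.pow_le_pow_left (pL_spec (L z)).1.two_le _).trans ?_
    exact Nat.pow_le_pow_right (pL_spec (L z)).1.pos (by omega)
  have hp : LS (fun z => 2 ^ L z) := LS.pow_of_le (f := fun _ => 2) (by fun_prop)
    (by fun_prop) hC hb6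
  unfold Xor.VW
  refine LS.gval (p := fun z => pL (L z)) (D := fun _ => 2) (L := L) (h := h)
    (root := u) (G := fun z => (lam z + 1) * (2 ^ lam z * 2 ^ lam z * 2 ^ lam z)) (C := C)
    (F := fun z => Xor.FW (q z) (L z) (2 ^ lam z))
    (leaf := fun z => Xor.leafW (q z) (L z) (2 ^ lam z) (t z))
    (ch := fun z => Xor.chW (2 ^ lam z) (lam z)) ?_ (LS.const 2) hL hh hu ?_ hC
    ?_ ?_ ?_ ?_ ?_ ?_ ?_ ?_ ?_ ?_ ?_
  · unfold pL
    fun_prop
  · exact LS.mul (by fun_prop) (LS.mul (LS.mul hM hM) hM)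
  · have hM' : LS (fun w : α × ℕ × ℕ => 2 ^ lam w.1) :=
      LS.comp (f := fun q : α × ℕ × ℕ => q.1) hM (by fun_prop)
    have hp' : LS (fun w : α × ℕ × ℕ => 2 ^ L w.1) :=
      LS.comp (f := fun q : α × ℕ × ℕ => q.1) hp (by fun_prop)
    have hd0 : LS (fun w : α × ℕ × ℕ => dig (2 ^ L w.1) w.2.2 0) :=
      LS.dig hp' (by fun_prop) (LS.const 0)
    have hd1 : LS (fun w : α × ℕ × ℕ => dig (2 ^ L w.1) w.2.2 1) :=
      LS.dig hp' (by fun_prop) (LS.const 1)
    have hq' : LS (fun w : α × ℕ × ℕ => q w.1) := by fun_prop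
    have hu' : LS (fun w : α × ℕ × ℕ => w.2.1) := by fun_prop
    unfold Xor.FW
    exact LS.mod (LS.ifz (LS.div (LS.div (LS.div hu' hM') hM') hM')
      (LS.mod (LS.mul hd0 hd1) hq') (LS.mod (LS.add hd0 hd1) hq')) hp'
  · have hM' : LS (fun w : α × ℕ => 2 ^ lam w.1) :=
      LS.comp (f := fun q : α × ℕ => q.1) hM (by fun_prop)
    have hp' : LS (fun w : α × ℕ => 2 ^ L w.1) :=
      LS.comp (f := fun q : α × ℕ => q.1) hp (by fun_prop)
    have hu' : LS (fun w : α × ℕ => w.2) := by fun_prop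
    unfold Xor.leafW
    exact LS.mod (LS.mod (ht.app (by fun_prop) (LS.mod (LS.div hu' hM') hM') (LS.mod hu' hM'))
      (by fun_prop)) hp'
  · exact LS.chW (LS.comp (f := fun q : α × ℕ × ℕ => q.1) hM (by fun_prop)) (by fun_prop)
      (by fun_prop) (by fun_prop)
  · intro z u i
    exact chW_le (by positivity) _ _ _
  · intro z
    exact (pL_spec (L z)).1
  · intro z
    have := (pL_spec (L z)).2.1
    omega
  · intro z
    have := (pL_spec (L z)).2.1
    show 2 * L z < pL (L z) - 1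
    omega
  · intro z u x
    exact Nat.mod_lt _ (by positivity)
  · intro z u
    exact Nat.mod_lt _ (by positivity)
  · exact hb3
  · exact hb4

end Pool.Agent.Helper78.Xor
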