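import Pool.Agent.Helper78.Mpc.MTree

/-!
# Evaluation of straight-line programs by trees
-/

namespace Pool.Agent.Helper78.Xor

open Pool.Agent.Helper65.LinSpace Finset
open Pool.Agent.Helper78.Mpc

/-! ### Straight-line programs -/

section

variable (q : ℕ) (op : ℕ → ℕ → ℕ → ℕ) (b : ℕ → ℕ → ℕ) (c : ℕ → ℕ → ℕ → ℕ)

/-- The `r`-th value of a straight-line program. -/
def sig (r : ℕ) : ℕ :=
  op r ((b 0 r + ∑ i : Fin r, c 0 r i * sig i) % q) ((b 1 r + ∑ i : Fin r, c 1 r i * sig i) % q)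
termination_by r
decreasing_by all_goals exact i.2

theorem sig_eq (r : ℕ) : sig q op b c r =
    op r ((b 0 r + ∑ i ∈ range r, c 0 r i * sig q op b c i) % q)
      ((b 1 r + ∑ i ∈ range r, c 1 r i * sig q op b c i) % q) := by
  rw [sig, sum_range, sum_range]

/-- The values of the first gates of the block `j`, when the digits of `E` are the external sums;
`cap` bounds the powers of `2`. -/
def innN (B cap j E i : ℕ) : ℕ :=
  nrec 0 (fun i S => S + capPow 2 i cap * op (j * B + i)
    ((b 0 (j * B + i) + dig q E (2 * i) +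
      (∑ t ∈ range i, c 0 (j * B + i) (j * B + t) * dig 2 S t) % q) % q)
    ((b 1 (j * B + i) + dig q E (2 * i + 1) +
      (∑ t ∈ range i, c 1 (j * B + i) (j * B + t) * dig 2 S t) % q) % q)) i

/-- The contribution of the block `a` with values `G` to the sums of the block `j`. -/
def ctr (B j a G : ℕ) : ℕ :=
  tab q (2 * B) fun t =>
    (∑ i ∈ range B, c (t % 2) (j * B + t / 2) (a * B + i) * dig 2 G i) % q

/-- The sum of two vectors. -/
def vadd (m x y : ℕ) : ℕ := tab q m fun t => (dig q x t + dig q y t) % q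

/-- The operation of the node `u`. -/
def FX (B cap L M u x : ℕ) : ℕ :=
  (ifz (u / M / M) (innN q op b c B cap (u % M) (dig (2 ^ L) x 0) B)
    (ifz (u / M / M - 1) (ifz (lt01 (u / M % M) (u % M)) 0
      (ctr q c B (u % M) (u / M % M) (dig (2 ^ L) x 0)))
      (vadd q (2 * B) (dig (2 ^ L) x 0) (dig (2 ^ L) x 1)))) % 2 ^ L

/-- The value of a node. -/
def VX (B cap L lam h u : ℕ) : ℕ :=
  gval 2 L (FX q op b c B cap L (2 ^ lam)) (fun _ => 0) (chM lam (2 ^ lam)) h u

end

section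

variable {q : ℕ} {op : ℕ → ℕ → ℕ → ℕ} {b : ℕ → ℕ → ℕ} {c : ℕ → ℕ → ℕ → ℕ}

theorem sig_lt (hop : ∀ r s t, op r s t < 2) (r : ℕ) : sig q op b c r < 2 := by
  rw [sig_eq]
  exact hop _ _ _

theorem sum_range_mul (f : ℕ → ℕ) (j B : ℕ) :
    ∑ r ∈ range (j * B), f r = ∑ a ∈ range j, ∑ i ∈ range B, f (a * B + i) := by
  induction j with
  | zero => simp
  | succ j ih =>
    rw [sum_range_succ, ← ih, Nat.succ_mul, sum_range_add]

/-- The sum over the inputs from previous blocks. -/
def ext (q : ℕ) (op : ℕ → ℕ → ℕ → ℕ) (b : ℕ → ℕ → ℕ) (c : ℕ → ℕ → ℕ → ℕ) (B j t a : ℕ) : ℕ :=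
  if a < j then ∑ i ∈ range B, c (t % 2) (j * B + t / 2) (a * B + i) * sig q op b c (a * B + i)
  else 0

/-- The values of the block `j`. -/
def blkV (q : ℕ) (op : ℕ → ℕ → ℕ → ℕ) (b : ℕ → ℕ → ℕ) (c : ℕ → ℕ → ℕ → ℕ) (B j i : ℕ) : ℕ :=
  tab 2 i fun i => sig q op b c (j * B + i)

theorem innN_eq (hop : ∀ r s t, op r s t < 2) {B cap j E : ℕ} (hcap : 2 ^ B ≤ cap)
    (hE : ∀ t < 2 * B, dig q E t = (∑ a ∈ range j, ext q op b c B j t a) % q) :
    ∀ i ≤ B, innN q op b c B cap j E i = blkV q op b c B j i := by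
  intro i
  induction i with
  | zero => intro _; rfl
  | succ i ih =>
    intro hi
    have h := ih (by omega)
    have hpow : capPow 2 i cap = 2 ^ i := by
      have : 2 ^ i ≤ 2 ^ B := Nat.pow_le_pow_right (by norm_num) (by omega)
      rw [capPow, min_eq_left (by omega)]
    have hS : ∀ t < i, dig 2 (blkV q op b c B j i) t = sig q op b c (j * B + t) := fun t ht =>
      dig_tab (fun _ _ => sig_lt hop _) ht
    have key : ∀ s < 2, (b s (j * B + i) + dig q E (2 * i + s) +
        (∑ t ∈ range i, c s (j * B + i) (j * B + t) * dig 2 (blkV q op b c B j i) t) % q) % q =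
        (b s (j * B + i) + ∑ r ∈ range (j * B + i), c s (j * B + i) r * sig q op b c r) % q := by
      intro s hs
      have e1 : (2 * i + s) % 2 = s := by omega
      have e2 : (2 * i + s) / 2 = i := by omega
      have e3 : ∑ a ∈ range j, ext q op b c B j (2 * i + s) a =
          ∑ r ∈ range (j * B), c s (j * B + i) r * sig q op b c r := by
        rw [sum_range_mul]
        refine sum_congr rfl fun a ha => ?_
        rw [ext, if_pos (mem_range.1 ha), e1, e2]
      have e4 : ∑ t ∈ range i, c s (j * B + i) (j * B + t) * dig 2 (blkV q op b c B j i) t =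
          ∑ t ∈ range i, c s (j * B + i) (j * B + t) * sig q op b c (j * B + t) :=
        sum_congr rfl fun t ht => by rw [hS t (mem_range.1 ht)]
      rw [hE (2 * i + s) (by omega), e3, e4, sum_range_add]
      generalize ∑ r ∈ range (j * B), c s (j * B + i) r * sig q op b c r = X
      generalize ∑ t ∈ range i, c s (j * B + i) (j * B + t) * sig q op b c (j * B + t) = Y
      rw [Nat.add_mod_mod, Nat.add_right_comm, Nat.add_mod_mod, Nat.add_right_comm, add_assoc]
    have e : innN q op b c B cap j E (i + 1) = innN q op b c B cap j E i +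
        capPow 2 i cap * op (j * B + i)
        ((b 0 (j * B + i) + dig q E (2 * i) + (∑ t ∈ range i, c 0 (j * B + i) (j * B + t) *
          dig 2 (innN q op b c B cap j E i) t) % q) % q)
        ((b 1 (j * B + i) + dig q E (2 * i + 1) + (∑ t ∈ range i, c 1 (j * B + i) (j * B + t) *
          dig 2 (innN q op b c B cap j E i) t) % q) % q) := rfl
    have k0 := key 0 (by norm_num)
    have k1 := key 1 (by norm_num)
    rw [add_zero] at k0
    have e' : blkV q op b c B j (i + 1) = blkV q op b c B j i + sig q op b c (j * B + i) * 2 ^ i :=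
      tab_succ _ _ _
    have k2 := sig_eq q op b c (j * B + i)
    rw [e, h, hpow, k0, k1, e', ← k2, mul_comm]

/-- The vector of the sums over the inputs from the blocks `a 2^l, …, (a + 1) 2^l - 1`. -/
def extV (q : ℕ) (op : ℕ → ℕ → ℕ → ℕ) (b : ℕ → ℕ → ℕ) (c : ℕ → ℕ → ℕ → ℕ) (B j l a : ℕ) : ℕ :=
  tab q (2 * B) fun t => (∑ s ∈ range (2 ^ l), ext q op b c B j t (a * 2 ^ l + s)) % q

theorem extV_lt (hq : 0 < q) (B j l a : ℕ) : extV q op b c B j l a < q ^ (2 * B) :=
  tab_lt fun _ _ => Nat.mod_lt _ hq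

theorem extV_succ (hq : 0 < q) (B j l a : ℕ) : extV q op b c B j (l + 1) a =
    vadd q (2 * B) (extV q op b c B j l (2 * a)) (extV q op b c B j l (2 * a + 1)) := by
  unfold vadd
  refine tab_congr fun t ht => ?_
  have h1 : ∀ a, dig q (extV q op b c B j l a) t =
      (∑ s ∈ range (2 ^ l), ext q op b c B j t (a * 2 ^ l + s)) % q := fun a =>
    dig_tab (fun _ _ => Nat.mod_lt _ hq) ht
  rw [h1, h1, ← Nat.add_mod]
  congr 1
  have e : 2 ^ (l + 1) = 2 ^ l + 2 ^ l := by ring
  rw [e, sum_range_add]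
  have e1 : ∀ s, a * (2 ^ l + 2 ^ l) + s = 2 * a * 2 ^ l + s := by
    intro s
    ring
  have e2 : ∀ s, 2 * a * 2 ^ l + (2 ^ l + s) = (2 * a + 1) * 2 ^ l + s := by
    intro s
    ring
  simp only [e1, e2]

theorem extV_top (B j : ℕ) {l : ℕ} (h : j ≤ 2 ^ l) : extV q op b c B j l 0 =
    tab q (2 * B) fun t => (∑ a ∈ range j, ext q op b c B j t a) % q := by
  unfold extV
  refine tab_congr fun t _ => ?_
  congr 1
  obtain ⟨d, hd⟩ := Nat.exists_eq_add_of_le h
  rw [hd, sum_range_add]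
  have e1 : ∑ s ∈ range d, ext q op b c B j t (0 * (j + d) + (j + s)) = 0 := by
    refine sum_eq_zero fun s _ => ?_
    rw [ext, if_neg (by omega)]
  rw [e1, add_zero]
  refine sum_congr rfl fun s _ => ?_
  rw [zero_mul, zero_add]

theorem extV_zero (B j a : ℕ) : extV q op b c B j 0 a = tab q (2 * B) fun t =>
    ext q op b c B j t a % q := by
  unfold extV
  refine tab_congr fun t _ => ?_
  rw [pow_zero, sum_range_one, mul_one, add_zero]

theorem VX_lt (hop : ∀ r s t, op r s t < 2) (B cap L lam h u : ℕ) :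
    VX q op b c B cap L lam h u < 2 ^ L := by
  refine gval_lt (fun _ _ => Nat.mod_lt _ (by positivity)) (fun _ => by positivity) _ _

variable {B cap L lam : ℕ}

theorem VX_succ (hop : ∀ r s t, op r s t < 2) (h u : ℕ) : VX q op b c B cap L lam (h + 1) u =
    (ifz (u / 2 ^ lam / 2 ^ lam) (innN q op b c B cap (u % 2 ^ lam)
        (VX q op b c B cap L lam h (chM lam (2 ^ lam) u 0)) B)
    (ifz (u / 2 ^ lam / 2 ^ lam - 1) (ifz (lt01 (u / 2 ^ lam % 2 ^ lam) (u % 2 ^ lam)) 0
      (ctr q c B (u % 2 ^ lam) (u / 2 ^ lam % 2 ^ lam)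
        (VX q op b c B cap L lam h (chM lam (2 ^ lam) u 0))))
      (vadd q (2 * B) (VX q op b c B cap L lam h (chM lam (2 ^ lam) u 0))
        (VX q op b c B cap L lam h (chM lam (2 ^ lam) u 1))))) % 2 ^ L := by
  have h0 : ∀ f : ℕ → ℕ, (∀ i, f i < 2 ^ L) → dig (2 ^ L) (tab (2 ^ L) 2 f) 0 = f 0 ∧
      dig (2 ^ L) (tab (2 ^ L) 2 f) 1 = f 1 := fun f hf =>
    ⟨dig_tab (fun i _ => hf i) (by norm_num), dig_tab (fun i _ => hf i) (by norm_num)⟩
  obtain ⟨h1, h2⟩ := h0 (fun i => VX q op b c B cap L lam h (chM lam (2 ^ lam) u i))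
    (fun _ => VX_lt hop _ _ _ _ _ _)
  show FX q op b c B cap L (2 ^ lam) u (tab (2 ^ L) 2 fun i =>
    VX q op b c B cap L lam h (chM lam (2 ^ lam) u i)) = _
  unfold FX
  rw [h1, h2]

/-- The sums of the chunks. -/
theorem VX_chunk (hop : ∀ r s t, op r s t < 2) (hq : 0 < q) (hL : q ^ (2 * B) ≤ 2 ^ L) {j h : ℕ}
    (hj : j < 2 ^ lam) (hA : ∀ a < j, VX q op b c B cap L lam h (packL (2 ^ lam) 0 0 a) =
      blkV q op b c B a B) : ∀ l ≤ lam, ∀ a < 2 ^ (lam - l),
    VX q op b c B cap L lam (h + l + 1) (packL (2 ^ lam) (l + 1) a j) = extV q op b c B j l a := by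
  intro l
  induction l with
  | zero =>
    intro _ a ha
    rw [Nat.sub_zero] at ha
    obtain ⟨h1, h2, h3⟩ := packL_div (0 + 1) ha hj
    rw [add_zero, VX_succ hop, h1, h2, h3, ifz_ne (Nat.succ_ne_zero 0), Nat.add_sub_cancel, ifz_zero,
      extV_zero]
    by_cases haj : a < j
    · have hch : chM lam (2 ^ lam) (packL (2 ^ lam) (0 + 1) a j) 0 = packL (2 ^ lam) 0 0 a :=
        chM_one ha hj 0
      rw [lt01, if_pos haj, ifz_ne one_ne_zero, hch, hA a haj]
      have e : ctr q c B j a (blkV q op b c B a B) = tab q (2 * B) fun t =>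
          ext q op b c B j t a % q := by
        unfold ctr
        refine tab_congr fun t _ => ?_
        rw [ext, if_pos haj]
        congr 1
        refine sum_congr rfl fun i hi => ?_
        congr 1
        exact dig_tab (fun _ _ => sig_lt hop _) (mem_range.1 hi)
      rw [e]
      refine Nat.mod_eq_of_lt (lt_of_lt_of_le (tab_lt fun _ _ => Nat.mod_lt _ hq) hL)
    · rw [lt01, if_neg haj, ifz_zero, Nat.zero_mod]
      symm
      unfold tab
      refine sum_eq_zero fun t _ => ?_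
      show ext q op b c B j t a % q * q ^ t = 0
      rw [ext, if_neg haj, Nat.zero_mod, zero_mul]
  | succ l ih =>
    intro hl a ha
    have hpow : 2 ^ (lam - l) = 2 * 2 ^ (lam - (l + 1)) := by
      have : lam - l = lam - (l + 1) + 1 := by omega
      rw [this, pow_succ]
      ring
    have hle : 2 ^ (lam - l) ≤ 2 ^ lam := Nat.pow_le_pow_right (by norm_num) (Nat.sub_le _ _)
    obtain ⟨h1, h2, h3⟩ := packL_div (l + 1 + 1) (show a < 2 ^ lam by omega) hj
    have c0 : chM lam (2 ^ lam) (packL (2 ^ lam) (l + 1 + 1) a j) 0 =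
        packL (2 ^ lam) (l + 1) (2 * a) j := chM_two (i := 0) (by omega) hj
    have c1 : chM lam (2 ^ lam) (packL (2 ^ lam) (l + 1 + 1) a j) 1 =
        packL (2 ^ lam) (l + 1) (2 * a + 1) j := chM_two (by omega) hj
    rw [VX_succ hop, h1, h2, h3, ifz_ne (by omega), ifz_ne (by omega), c0, c1]
    have e : h + (l + 1) = h + l + 1 := by ring
    rw [e, ih (by omega) (2 * a) (by omega), ih (by omega) (2 * a + 1) (by omega), ← extV_succ hq]
    exact Nat.mod_eq_of_lt (lt_of_lt_of_le (extV_lt hq _ _ _ _) hL)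

/-- **Correctness of the tree.** -/
theorem VX_blk (hop : ∀ r s t, op r s t < 2) (hq : 0 < q) (hL : q ^ (2 * B) ≤ 2 ^ L)
    (hB : B ≤ L) (hcap : 2 ^ B ≤ cap) : ∀ j < 2 ^ lam, ∀ h, (j + 1) * (lam + 2) ≤ h →
    VX q op b c B cap L lam h (packL (2 ^ lam) 0 0 j) = blkV q op b c B j B := by
  intro j
  induction j using Nat.strong_induction_on with
  | _ j ih =>
    intro hj h hh
    obtain ⟨d, rfl⟩ : ∃ d, h = d + lam + 1 + 1 := by
      refine ⟨h - (lam + 2), ?_⟩
      rw [Nat.succ_mul] at hh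
      omega
    have hd : j * (lam + 2) ≤ d := by
      rw [Nat.succ_mul] at hh
      omega
    have hA : ∀ a < j, VX q op b c B cap L lam d (packL (2 ^ lam) 0 0 a) =
        blkV q op b c B a B := fun a ha =>
      ih a ha (by omega) d ((Nat.mul_le_mul_right _ ha).trans hd)
    obtain ⟨h1, h2, h3⟩ := packL_div 0 (show 0 < 2 ^ lam by positivity) hj
    have hch : chM lam (2 ^ lam) (packL (2 ^ lam) 0 0 j) 0 = packL (2 ^ lam) (lam + 1) 0 j :=
      chM_zero hj 0
    rw [VX_succ hop, h1, h2, h3, ifz_zero, hch, VX_chunk hop hq hL hj hA lam le_rfl 0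
      (by positivity), extV_top _ _ hj.le]
    have h5 := innN_eq (q := q) (op := op) (b := b) (c := c) (B := B) (cap := cap) (j := j)
      (E := tab q (2 * B) fun t => (∑ a ∈ range j, ext q op b c B j t a) % q) hop hcap
      (fun t ht => dig_tab (fun _ _ => Nat.mod_lt _ hq) ht) B le_rfl
    rw [h5]
    refine Nat.mod_eq_of_lt (lt_of_lt_of_le (tab_lt fun _ _ => sig_lt hop _) ?_)
    exact Nat.pow_le_pow_right (by norm_num) hB

theorem VX_sig (hop : ∀ r s t, op r s t < 2) (hq : 0 < q) (hL : q ^ (2 * B) ≤ 2 ^ L)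
    (hB : B ≤ L) (hcap : 2 ^ B ≤ cap) {J h r : ℕ} (hJ : J ≤ 2 ^ lam) (hh : J * (lam + 2) ≤ h)
    (hr : r < J * B) :
    dig 2 (VX q op b c B cap L lam h (packL (2 ^ lam) 0 0 (r / B))) (r % B) = sig q op b c r := by
  have hB0 : 0 < B := by
    rcases Nat.eq_zero_or_pos B with h | h
    · subst h
      simp at hr
    · exact h
  have hdiv : r / B < J := (Nat.div_lt_iff_lt_mul hB0).2 hr
  rw [VX_blk hop hq hL hB hcap (r / B) (by omega) h ((Nat.mul_le_mul_right _ hdiv).trans hh)]
  have h1 : dig 2 (blkV q op b c B (r / B) B) (r % B) = sig q op b c (r / B * B + r % B) :=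
    dig_tab (fun _ _ => sig_lt hop _) (Nat.mod_lt _ hB0)
  rw [h1, Nat.div_add_mod']

end

end Pool.Agent.Helper78.Xor
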