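import Pool.Agent.Helper78.Xor.Slp
import Pool.Agent.Helper78.Mpc.MParam

/-!
# Evaluation of straight-line programs in linear space
-/

namespace Pool.Agent.Helper78.Xor

open Pool.Agent.Helper65.LinSpace Finset
open Pool.Agent.Helper78.Mpc

variable {α β : Type} [Ctx α] [Ctx β]

/-- Linear space for functions of two numbers with parameters. -/
def LS2 (b : α → ℕ → ℕ → ℕ) : Prop := LS (fun z : α × ℕ × ℕ => b z.1 z.2.1 z.2.2)

/-- Linear space for functions of three numbers with parameters. -/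
def LS3 (c : α → ℕ → ℕ → ℕ → ℕ) : Prop :=
  LS (fun z : α × ℕ × ℕ × ℕ => c z.1 z.2.1 z.2.2.1 z.2.2.2)

theorem LS2.app {b : α → ℕ → ℕ → ℕ} (hb : LS2 b) {f : β → α} {x y : β → ℕ} (hf : LS f)
    (hx : LS x) (hy : LS y) : LS (fun z => b (f z) (x z) (y z)) :=
  LS.comp (g := fun z : α × ℕ × ℕ => b z.1 z.2.1 z.2.2) (f := fun z => (f z, x z, y z)) hb
    (by fun_prop)

theorem LS3.app {c : α → ℕ → ℕ → ℕ → ℕ} (hc : LS3 c) {f : β → α} {x y t : β → ℕ} (hf : LS f)
    (hx : LS x) (hy : LS y) (ht : LS t) : LS (fun z => c (f z) (x z) (y z) (t z)) :=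
  LS.comp (g := fun z : α × ℕ × ℕ × ℕ => c z.1 z.2.1 z.2.2.1 z.2.2.2)
    (f := fun z => (f z, x z, y z, t z)) hc (by fun_prop)

theorem LS.ctr {q B j a G C : α → ℕ} {c : α → ℕ → ℕ → ℕ → ℕ} (hq : LS q) (hB : LS B)
    (hj : LS j) (ha : LS a) (hG : LS G) (hC : LS C) (hc : LS3 c) (hq0 : ∀ z, 0 < q z)
    (hb : ∀ z, q z ^ (2 * B z) ≤ C z) :
    LS (fun z => ctr (q z) (c z) (B z) (j z) (a z) (G z)) := by
  unfold Xor.ctr
  refine LS.tab (q := q) (m := fun z => 2 * B z) (C := C)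
    (d := fun z t => (∑ i ∈ range (B z), c z (t % 2) (j z * B z + t / 2) (a z * B z + i) *
      dig 2 (G z) i) % q z) ?_ hq (by fun_prop) hC (fun z _ _ => Nat.mod_lt _ (hq0 z)) hb
  refine LS.sumMod (α := α × ℕ) (N := fun z => B z.1) (p := fun z => q z.1)
    (f := fun z i => c z.1 (z.2 % 2) (j z.1 * B z.1 + z.2 / 2) (a z.1 * B z.1 + i) *
      dig 2 (G z.1) i) ?_ (by fun_prop) (by fun_prop) (fun z => hq0 z.1)
  exact LS.mul (hc.app (by fun_prop) (by fun_prop) (by fun_prop) (by fun_prop)) (by fun_prop)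

theorem LS.vadd {q m x y C : α → ℕ} (hq : LS q) (hm : LS m) (hx : LS x) (hy : LS y) (hC : LS C)
    (hq0 : ∀ z, 0 < q z) (hb : ∀ z, q z ^ m z ≤ C z) :
    LS (fun z => vadd (q z) (m z) (x z) (y z)) := by
  unfold Xor.vadd
  exact LS.tab (q := q) (m := m) (C := C)
    (d := fun z t => (dig (q z) (x z) t + dig (q z) (y z) t) % q z) (by fun_prop) hq hm hC
    (fun z _ _ => Nat.mod_lt _ (hq0 z)) hb

theorem innN_le (q : ℕ) {op : ℕ → ℕ → ℕ → ℕ} (b : ℕ → ℕ → ℕ) (c : ℕ → ℕ → ℕ → ℕ)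
    (hop : ∀ r s t, op r s t < 2) (B cap j E i : ℕ) :
    innN q op b c B cap j E i < 2 ^ i := by
  unfold innN
  induction i with
  | zero => simp [nrec]
  | succ i ih =>
    rw [nrec_succ]
    generalize nrec 0 _ i = S at *
    have h1 : ∀ x y, capPow 2 i cap * op (j * B + i) x y ≤ 2 ^ i := by
      intro x y
      have h2 : capPow 2 i cap ≤ 2 ^ i := min_le_left _ _
      have h3 : op (j * B + i) x y ≤ 1 := Nat.lt_succ_iff.1 (hop _ _ _)
      calc _ ≤ 2 ^ i * 1 := Nat.mul_le_mul h2 h3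
        _ = _ := mul_one _
    have := h1 ((b 0 (j * B + i) + dig q E (2 * i) +
      (∑ t ∈ range i, c 0 (j * B + i) (j * B + t) * dig 2 S t) % q) % q)
      ((b 1 (j * B + i) + dig q E (2 * i + 1) +
      (∑ t ∈ range i, c 1 (j * B + i) (j * B + t) * dig 2 S t) % q) % q)
    rw [pow_succ]
    omega

theorem LS.innN {q B cap j E i C : α → ℕ} {op : α → ℕ → ℕ → ℕ → ℕ} {b : α → ℕ → ℕ → ℕ}
    {c : α → ℕ → ℕ → ℕ → ℕ} (hq : LS q) (hB : LS B) (hcap : LS cap) (hj : LS j) (hE : LS E)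
    (hi : LS i) (hC : LS C) (hop : LS3 op) (hb : LS2 b) (hc : LS3 c) (hq0 : ∀ z, 0 < q z)
    (hop2 : ∀ z r s t, op z r s t < 2) (hbd : ∀ z, 2 ^ i z ≤ C z) :
    LS (fun z => innN (q z) (op z) (b z) (c z) (B z) (cap z) (j z) (E z) (i z)) := by
  have hs : ∀ s : ℕ, LS (fun w : α × ℕ × ℕ =>
      (b w.1 s (j w.1 * B w.1 + w.2.1) + dig (q w.1) (E w.1) (2 * w.2.1 + s) +
      (∑ t ∈ range w.2.1, c w.1 s (j w.1 * B w.1 + w.2.1) (j w.1 * B w.1 + t) *
        dig 2 w.2.2 t) % q w.1) % q w.1) := by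
    intro s
    have h1 : LS (fun w : α × ℕ × ℕ => (∑ t ∈ range w.2.1, c w.1 s (j w.1 * B w.1 + w.2.1)
        (j w.1 * B w.1 + t) * dig 2 w.2.2 t) % q w.1) := by
      refine LS.sumMod (α := α × ℕ × ℕ) (N := fun w => w.2.1) (p := fun w => q w.1)
        (f := fun w t => c w.1 s (j w.1 * B w.1 + w.2.1) (j w.1 * B w.1 + t) * dig 2 w.2.2 t)
        ?_ (by fun_prop) (by fun_prop) (fun w => hq0 w.1)
      exact LS.mul (hc.app (by fun_prop) (by fun_prop) (by fun_prop) (by fun_prop))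
        (by fun_prop)
    have h2 : LS (fun w : α × ℕ × ℕ => b w.1 s (j w.1 * B w.1 + w.2.1)) :=
      hb.app (by fun_prop) (by fun_prop) (by fun_prop)
    exact LS.mod (LS.add (LS.add h2 (by fun_prop)) h1) (by fun_prop)
  unfold Xor.innN
  refine LS.nrec (G := fun _ => 0) (N := i) (C := C) (K := fun z i S => S +
    capPow 2 i (cap z) * op z (j z * B z + i)
    ((b z 0 (j z * B z + i) + dig (q z) (E z) (2 * i) +
      (∑ t ∈ range i, c z 0 (j z * B z + i) (j z * B z + t) * dig 2 S t) % q z) % q z)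
    ((b z 1 (j z * B z + i) + dig (q z) (E z) (2 * i + 1) +
      (∑ t ∈ range i, c z 1 (j z * B z + i) (j z * B z + t) * dig 2 S t) % q z) % q z))
    (by fun_prop) hi hC ?_ ?_
  · have h0 := hs 0
    have h1 := hs 1
    simp only [add_zero] at h0
    exact LS.add (by fun_prop) (LS.mul (by fun_prop)
      (hop.app (f := fun w : α × ℕ × ℕ => w.1) (by fun_prop) (by fun_prop) h0 h1))
  · intro z t ht
    exact (innN_le (q z) (b z) (c z) (hop2 z) (B z) (cap z) (j z) (E z) t).le.trans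
      ((Nat.pow_le_pow_right (by norm_num) ht).trans (hbd z))

theorem LS.FX {q B cap L M u x C : α → ℕ} {op : α → ℕ → ℕ → ℕ → ℕ} {b : α → ℕ → ℕ → ℕ}
    {c : α → ℕ → ℕ → ℕ → ℕ} (hq : LS q) (hB : LS B) (hcap : LS cap) (hL : LS L) (hM : LS M)
    (hu : LS u) (hx : LS x) (hC : LS C) (hop : LS3 op) (hb : LS2 b) (hc : LS3 c)
    (hq0 : ∀ z, 0 < q z) (hop2 : ∀ z r s t, op z r s t < 2) (hb1 : ∀ z, 2 ^ B z ≤ C z)
    (hb2 : ∀ z, q z ^ (2 * B z) ≤ C z) (hb3 : ∀ z, 2 ^ L z ≤ C z) :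
    LS (fun z => FX (q z) (op z) (b z) (c z) (B z) (cap z) (L z) (M z) (u z) (x z)) := by
  have hp : LS (fun z => 2 ^ L z) := LS.pow_of_le (f := fun _ => 2) (by fun_prop)
    (by fun_prop) hC hb3
  have hd0 : LS (fun z => dig (2 ^ L z) (x z) 0) := LS.dig hp hx (LS.const 0)
  have hd1 : LS (fun z => dig (2 ^ L z) (x z) 1) := LS.dig hp hx (LS.const 1)
  unfold Xor.FX
  refine LS.mod (LS.ifz (by fun_prop) ?_ (LS.ifz (by fun_prop) (LS.ifz (by fun_prop)
    (LS.const 0) ?_) ?_)) hp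
  · exact LS.innN (i := B) (j := fun z => u z % M z) hq hB hcap (by fun_prop) hd0 hB hC hop hb hc
      hq0 hop2 hb1
  · exact LS.ctr (j := fun z => u z % M z) (a := fun z => u z / M z % M z) hq hB (by fun_prop)
      (by fun_prop) hd0 hC hc hq0 hb2
  · exact LS.vadd (m := fun z => 2 * B z) hq (by fun_prop) hd0 hd1 hC hq0 hb2

/-- The prime of the evaluation. -/
noncomputable def pL (L : ℕ) : ℕ := nextPrime (2 * L + 2)

theorem pL_spec (L : ℕ) : (pL L).Prime ∧ 2 * L + 2 < pL L ∧ pL L ≤ 2 * (2 * L + 2) :=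
  nextPrime_spec (by omega)

theorem LS.VX {q B cap L lam h u C : α → ℕ} {op : α → ℕ → ℕ → ℕ → ℕ} {b : α → ℕ → ℕ → ℕ}
    {c : α → ℕ → ℕ → ℕ → ℕ} (hq : LS q) (hB : LS B) (hcap : LS cap) (hL : LS L) (hlam : LS lam)
    (hh : LS h) (hu : LS u) (hC : LS C) (hop : LS3 op) (hb : LS2 b) (hc : LS3 c)
    (hq0 : ∀ z, 0 < q z) (hop2 : ∀ z r s t, op z r s t < 2) (hb1 : ∀ z, 2 ^ B z ≤ C z)
    (hb2 : ∀ z, q z ^ (2 * B z) ≤ C z) (hb3 : ∀ z, pL (L z) ^ (3 * L z) ≤ C z)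
    (hb4 : ∀ z, MM (pL (L z)) 2 ^ h z ≤ C z) (hb5 : ∀ z, 2 ^ lam z ≤ C z) :
    LS (fun z => VX (q z) (op z) (b z) (c z) (B z) (cap z) (L z) (lam z) (h z) (u z)) := by
  have hM : LS (fun z => 2 ^ lam z) := LS.pow_of_le (f := fun _ => 2) (by fun_prop) hlam hC hb5
  have hb6 : ∀ z, 2 ^ L z ≤ C z := fun z => by
    refine le_trans ?_ (hb3 z)
    refine (Nat.pow_le_pow_left (pL_spec (L z)).1.two_le _).trans ?_
    exact Nat.pow_le_pow_right (pL_spec (L z)).1.pos (by omega)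
  unfold Xor.VX
  refine LS.gval (p := fun z => pL (L z)) (D := fun _ => 2) (L := L) (h := h)
    (root := u) (G := fun z => (lam z + 2) * (2 ^ lam z * 2 ^ lam z)) (C := C)
    (F := fun z => Xor.FX (q z) (op z) (b z) (c z) (B z) (cap z) (L z) (2 ^ lam z))
    (leaf := fun _ _ => 0)
    (ch := fun z => Mpc.chM (lam z) (2 ^ lam z)) ?_ (LS.const 2) hL hh hu ?_ hC
    ?_ ?_ ?_ ?_ ?_ ?_ ?_ ?_ ?_ ?_ ?_
  · unfold pL
    fun_prop
  · exact LS.mul (by fun_prop) (LS.mul hM hM)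
  · exact LS.FX (q := fun w : α × ℕ × ℕ => q w.1) (B := fun w => B w.1) (cap := fun w => cap w.1)
      (L := fun w => L w.1) (M := fun w => 2 ^ lam w.1) (u := fun w => w.2.1)
      (x := fun w => w.2.2) (C := fun w => C w.1) (op := fun w => op w.1) (b := fun w => b w.1)
      (c := fun w => c w.1) (by fun_prop) (by fun_prop) (by fun_prop) (by fun_prop)
      (LS.comp (f := fun q : α × ℕ × ℕ => q.1) hM (by fun_prop)) (by fun_prop) (by fun_prop)
      (by fun_prop)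
      (hop.app (by fun_prop) (by fun_prop) (by fun_prop) (by fun_prop))
      (hb.app (by fun_prop) (by fun_prop) (by fun_prop))
      (hc.app (by fun_prop) (by fun_prop) (by fun_prop) (by fun_prop))
      (fun w => hq0 w.1) (fun w => hop2 w.1) (fun w => hb1 w.1) (fun w => hb2 w.1)
      (fun w => hb6 w.1)
  · exact LS.const 0
  · exact LS.chM (by fun_prop) (LS.comp (f := fun q : α × ℕ × ℕ => q.1) hM (by fun_prop))
      (by fun_prop) (by fun_prop)
  · intro z u i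
    exact chM_le (by positivity) _ _ _
  · intro z
    exact (pL_spec (L z)).1
  · intro z
    have := (pL_spec (L z)).2.1
    omega
  · intro z
    have := (pL_spec (L z)).2.1
    show 2 * L z < pL (L z) - 1
    omega
  · intro z u x
    exact Nat.mod_lt _ (by positivity)
  · intro z u
    positivity
  · exact hb3
  · exact hb4

end Pool.Agent.Helper78.Xor
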