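import Pool.Agent.Helper78.Xor.Par

/-!
# The universal function for circuits
-/

namespace Pool.Agent.Helper78.Xor

open Pool.Agent.Helper65.LinSpace Finset
open Pool.Agent.Helper78.Mpc

variable {α β : Type} [Ctx α] [Ctx β]

/-! ### Bounds -/

theorem LX_mul (n : ℕ) : LX n * (ll n * ll n) ≤ 2 * n := by
  have h := RR_mul n
  unfold LX la
  calc 2 * RR n * (ll n * ll n) * (ll n * ll n) = 2 * (RR n * (ll n * ll n * ll n * ll n)) := by
        ring
    _ ≤ 2 * n := Nat.mul_le_mul_left _ h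

theorem LX_mul_ll (n : ℕ) : LX n * ll n ≤ 2 * n := by
  refine le_trans ?_ (LX_mul n)
  exact Nat.mul_le_mul_left _ (Nat.le_mul_of_pos_left _ (ll_pos n))

theorem LX_le (n : ℕ) : LX n ≤ 2 * n := by
  refine le_trans ?_ (LX_mul_ll n)
  exact Nat.le_mul_of_pos_right _ (ll_pos n)

theorem RR_le_LX (n : ℕ) : RR n ≤ LX n := by
  have h := Nat.mul_le_mul (ll_pos n) (ll_pos n)
  unfold LX la
  calc RR n = 1 * RR n * (1 * 1) := by ring
    _ ≤ 2 * RR n * (ll n * ll n) := Nat.mul_le_mul (Nat.mul_le_mul_right _ (by norm_num)) h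

theorem LX_b3 (x : ℕ) : pL (LX (Nat.log 2 x)) ^ (3 * LX (Nat.log 2 x)) ≤ CX x := by
  have h0 := LX_le (Nat.log 2 x)
  refine (Nat.pow_le_pow_left (pL_le (n := Nat.log 2 x) (by omega)) _).trans ?_
  rw [← pow_mul]
  refine two_pow_le_CX ?_
  generalize Nat.log 2 x = n at *
  have h1 := LX_mul_ll n
  have h3 := ll_pos n
  calc (ll n + 5) * (3 * LX n) ≤ (6 * ll n) * (3 * LX n) := Nat.mul_le_mul_right _ (by omega)
    _ = 18 * (LX n * ll n) := by ring
    _ ≤ _ := by omega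

theorem LX_b4 (x : ℕ) :
    MM (pL (LX (Nat.log 2 x))) 2 ^ (RR (Nat.log 2 x) * (la (Nat.log 2 x) + 2)) ≤ CX x := by
  have h0 := LX_le (Nat.log 2 x)
  refine (Nat.pow_le_pow_left (MM_pL_le (n := Nat.log 2 x) (by omega)) _).trans ?_
  rw [← pow_mul]
  refine two_pow_le_CX ?_
  generalize Nat.log 2 x = n at *
  have h1 := RR_mul3 n
  have h3 := ll_pos n
  have h5 : la n + 2 ≤ 3 * (ll n * ll n) := by
    unfold la
    have := Nat.mul_le_mul h3 h3
    omega
  calc (ll n + 8) * (RR n * (la n + 2)) ≤ (9 * ll n) * (RR n * (3 * (ll n * ll n))) :=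
        Nat.mul_le_mul (by omega) (Nat.mul_le_mul le_rfl h5)
    _ = 27 * (RR n * (ll n * ll n * ll n)) := by ring
    _ ≤ _ := by omega

theorem la_b5 (x : ℕ) : 2 ^ la (Nat.log 2 x) ≤ CX x := by
  refine two_pow_le_CX ?_
  have := ll_sq_le (Nat.log 2 x)
  unfold la
  omega

theorem RR_b1 (x : ℕ) : 2 ^ RR (Nat.log 2 x) ≤ CX x := by
  refine two_pow_le_CX ?_
  have : RR (Nat.log 2 x) ≤ Nat.log 2 x := Nat.div_le_self _ _
  omega

theorem QX_pos (m a n x : ℕ) : 0 < QX m a n x := lt_of_lt_of_le one_pos (le_max_left _ _)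

theorem QX_le (m a n x : ℕ) : QX m a n x ≤ 2 ^ la n :=
  max_le Nat.one_le_two_pow (min_le_right _ _)

theorem QX_pow (m a n x : ℕ) : QX m a n x ^ (2 * RR n) ≤ 2 ^ LX n := by
  refine (Nat.pow_le_pow_left (QX_le m a n x) _).trans ?_
  rw [← pow_mul]
  refine Nat.pow_le_pow_right (by norm_num) (le_of_eq ?_)
  unfold LX
  ring

theorem LX_b6 (x : ℕ) : 2 ^ LX (Nat.log 2 x) ≤ CX x := by
  refine two_pow_le_CX ?_
  have := LX_le (Nat.log 2 x)
  omega

theorem beta_le (x : ℕ) : (2 ^ (2 * ll (Nat.log 2 x))) ^ LW (Nat.log 2 x) ≤ CX x := by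
  rw [← pow_mul]
  refine two_pow_le_CX ?_
  have h := LW_mul (Nat.log 2 x)
  nlinarith

/-! ### The universal function -/

/-- The values of the straight-line program. -/
def sigX (q : ℕ) (op : ℕ → ℕ → ℕ → ℕ) (b : ℕ → ℕ → ℕ) (c : ℕ → ℕ → ℕ → ℕ) (n x r : ℕ) : ℕ :=
  dig 2 (VX q op b c (RR n) (CX x) (LX n) (la n) (RR n * (la n + 2))
    (packL (2 ^ la n) 0 0 (r / RR n))) (r % RR n)

/-- The output of the circuit. -/
def outG (q lam K N : ℕ) (nl : ℕ → ℕ) (le ri : ℕ → ℕ → ℕ) (opf : ℕ → ℕ → ℕ → ℕ) (inp : ℕ → ℕ)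
    (n x : ℕ) : ℕ :=
  outS q lam K N nl le inp (sigX q (opR lam nl opf) (bN q lam K nl le ri inp)
    (cN q lam K nl le ri) n x)

/-- The output of the circuit with the given codes. -/
def outX (c e1 e2 e3 e4 k m a n x y : ℕ) : ℕ :=
  outG (QX m a n x) (la n) (n + c * n) (capPow (n + 2) k (CX x))
    (nlF e1 (LW n) (2 ^ (2 * ll n)) n (n + c * n) (capPow (n + 2) k (CX x)))
    (wiF e2 (LW n) (2 ^ (2 * ll n)) n (capPow (n + 2) k (CX x)))
    (wiF e3 (LW n) (2 ^ (2 * ll n)) n (capPow (n + 2) k (CX x)))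
    (opF e4 (LW n) (2 ^ (2 * ll n)) n) (inpF x y n) n x

/-- The number of accepting guesses. -/
def UX (c e x : ℕ) : ℕ :=
  ∑ y ∈ range (2 ^ (c * Nat.log 2 x + 1)), lt01 0 y * (eq01 (Nat.log 2 y) (c * Nat.log 2 x) *
    eq01 (outX c (Nat.unpair e).1 (Nat.unpair (Nat.unpair e).2).1
      (Nat.unpair (Nat.unpair (Nat.unpair e).2).2).1
      (Nat.unpair (Nat.unpair (Nat.unpair (Nat.unpair e).2).2).2).1
      (Nat.unpair (Nat.unpair (Nat.unpair (Nat.unpair (Nat.unpair e).2).2).2).2).1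
      (Nat.unpair (Nat.unpair (Nat.unpair (Nat.unpair (Nat.unpair (Nat.unpair e).2).2).2).2).2).1
      (Nat.unpair (Nat.unpair (Nat.unpair (Nat.unpair (Nat.unpair (Nat.unpair e).2).2).2).2).2).2
      (Nat.log 2 x) x y) 1)

@[fun_prop]
theorem LS.CX {x : α → ℕ} (hx : LS x) : LS (fun a => CX (x a)) := by
  unfold Xor.CX
  exact LS.pow_const (LS.add hx (LS.const 2)) (2 * cX)

@[fun_prop]
theorem LS.LX {n : α → ℕ} (hn : LS n) : LS (fun a => LX (n a)) := by
  unfold Xor.LX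
  fun_prop

section

variable {q x K N e1 e2 e3 e4 k m a y : α → ℕ} {nl : α → ℕ → ℕ} {le ri : α → ℕ → ℕ → ℕ}
  {inp σ : α → ℕ → ℕ} {opf : α → ℕ → ℕ → ℕ → ℕ}

theorem LS.sigX {op : α → ℕ → ℕ → ℕ → ℕ} {b : α → ℕ → ℕ → ℕ} {c : α → ℕ → ℕ → ℕ → ℕ}
    (hq : LS q) (hx : LS x) (hop : LS3 op) (hb : LS2 b) (hc : LS3 c) (hq0 : ∀ z, 0 < q z)
    (hqb : ∀ z, q z ^ (2 * RR (Nat.log 2 (x z))) ≤ 2 ^ Xor.LX (Nat.log 2 (x z)))
    (hop2 : ∀ z r s t, op z r s t < 2) :
    LS1 (fun z => sigX (q z) (op z) (b z) (c z) (Nat.log 2 (x z)) (x z)) := by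
  have hM : LS (fun z : α => 2 ^ la (Nat.log 2 (x z))) :=
    LS.pow_of_le (f := fun _ => 2) (by fun_prop) (by fun_prop) (C := fun z => Xor.CX (x z))
      (by fun_prop) (fun z => la_b5 _)
  have hM' : LS (fun w : α × ℕ => 2 ^ la (Nat.log 2 (x w.1))) :=
    LS.comp (f := fun w : α × ℕ => w.1) hM (by fun_prop)
  unfold Xor.sigX
  refine LS.dig (LS.const 2) ?_ (by fun_prop)
  refine LS.VX (α := α × ℕ) (q := fun w => q w.1) (B := fun w => RR (Nat.log 2 (x w.1)))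
    (cap := fun w => Xor.CX (x w.1)) (L := fun w => Xor.LX (Nat.log 2 (x w.1)))
    (lam := fun w => la (Nat.log 2 (x w.1)))
    (h := fun w => RR (Nat.log 2 (x w.1)) * (la (Nat.log 2 (x w.1)) + 2))
    (u := fun w => packL (2 ^ la (Nat.log 2 (x w.1))) 0 0 (w.2 / RR (Nat.log 2 (x w.1))))
    (C := fun w => Xor.CX (x w.1)) (op := fun w => op w.1) (b := fun w => b w.1)
    (c := fun w => c w.1) (by fun_prop) (by fun_prop) (by fun_prop) (by fun_prop) (by fun_prop)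
    (by fun_prop) (LS.packL hM' (LS.const 0) (LS.const 0) (by fun_prop)) (by fun_prop)
    (hop.app (by fun_prop) (by fun_prop) (by fun_prop) (by fun_prop))
    (hb.app (by fun_prop) (by fun_prop) (by fun_prop))
    (hc.app (by fun_prop) (by fun_prop) (by fun_prop) (by fun_prop))
    (fun w => hq0 w.1) (fun w => hop2 w.1) (fun w => RR_b1 _) (fun w => (hqb w.1).trans (LX_b6 _))
    (fun w => LX_b3 _) (fun w => LX_b4 _) (fun w => la_b5 _)

theorem LS.outG (hq : LS q) (hx : LS x) (hK : LS K) (hN : LS N) (hnl : LS1 nl)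
    (h1 : ∀ z g, nl z g ≤ 1) (hle : LS2 le) (hri : LS2 ri) (hopf : LS3 opf) (hinp : LS1 inp)
    (hq0 : ∀ z, 0 < q z)
    (hqb : ∀ z, q z ^ (2 * RR (Nat.log 2 (x z))) ≤ 2 ^ Xor.LX (Nat.log 2 (x z)))
    (hop2 : ∀ z r s t, opf z r s t < 2) :
    LS (fun z => outG (q z) (la (Nat.log 2 (x z))) (K z) (N z) (nl z) (le z) (ri z) (opf z)
      (inp z) (Nat.log 2 (x z)) (x z)) := by
  have hb : Bd q (fun z => la (Nat.log 2 (x z))) (fun z => Xor.CX (x z)) :=
    { hq := hq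
      hlam := by fun_prop
      hC := by fun_prop
      q_pos := hq0
      b3 := fun z => la_b3 _
      b4 := fun z => la_b4 _
      b5 := fun z => la_b5 _ }
  unfold Xor.outG
  exact LS.outS hb hK hN hnl h1 hle hinp (LS.sigX hq hx (LS.opR hb hnl h1 hopf)
    (LS.bN hb hK hnl h1 hle hri hinp) (LS.cN hb hK hnl h1 hle hri) hq0 hqb
    (fun z r s t => hop2 z _ s t))

theorem LS.outX (c : ℕ) (he1 : LS e1) (he2 : LS e2) (he3 : LS e3) (he4 : LS e4) (hk : LS k)
    (hm : LS m) (ha : LS a) (hx : LS x) (hy : LS y) :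
    LS (fun z => outX c (e1 z) (e2 z) (e3 z) (e4 z) (k z) (m z) (a z) (Nat.log 2 (x z)) (x z)
      (y z)) := by
  have hM : LS (fun z : α => 2 ^ la (Nat.log 2 (x z))) :=
    LS.pow_of_le (f := fun _ => 2) (by fun_prop) (by fun_prop) (C := fun z => Xor.CX (x z))
      (by fun_prop) (fun z => la_b5 _)
  have hβ : LS (fun z => 2 ^ (2 * ll (Nat.log 2 (x z)))) := by
    refine LS.pow_of_le (f := fun _ => 2) (by fun_prop) (by fun_prop)
      (C := fun z => Xor.CX (x z)) (by fun_prop) fun z => two_pow_le_CX ?_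
    have := ll_le (Nat.log 2 (x z))
    omega
  have hC : LS (fun z => Xor.CX (x z)) := by fun_prop
  have hq : LS (fun z => QX (m z) (a z) (Nat.log 2 (x z)) (x z)) := by
    unfold QX
    exact LS.max (LS.const 1) (LS.min (by fun_prop) hM)
  have hβ0 : ∀ z, 0 < 2 ^ (2 * ll (Nat.log 2 (x z))) := fun z => by positivity
  have hβC := fun z => beta_le (x z)
  have hn : LS (fun z => Nat.log 2 (x z)) := by fun_prop
  have hW : LS (fun z => LW (Nat.log 2 (x z))) := by fun_prop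
  have hK : LS (fun z => Nat.log 2 (x z) + c * Nat.log 2 (x z)) := by fun_prop
  have hN : LS (fun z => capPow (Nat.log 2 (x z) + 2) (k z) (Xor.CX (x z))) := by fun_prop
  unfold Xor.outX
  exact LS.outG hq hx hK hN (LS.nlF he1 hW hβ hn hK hN hC hβ0 hβC) (fun z g => nlF_le _ _ _ _ _ _ _)
    (LS.wiF he2 hW hβ hn hN hC hβ0 hβC) (LS.wiF he3 hW hβ hn hN hC hβ0 hβC)
    (LS.opF he4 hW hβ hn hC hβ0 hβC) (LS.inpF hx hy hn) (fun z => QX_pos _ _ _ _)
    (fun z => QX_pow _ _ _ _) (fun z r s t => opF_lt _ _ _ _ _ _ _)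

end

theorem eq01_le (x y : ℕ) : eq01 x y ≤ 1 := by
  unfold eq01
  split_ifs <;> omega

theorem LS.UX (c : ℕ) {e x : α → ℕ} (he : LS e) (hx : LS x) : LS (fun a => UX c (e a) (x a)) := by
  have hout : LS (fun z : α × ℕ => Xor.outX c (Nat.unpair (e z.1)).1
      (Nat.unpair (Nat.unpair (e z.1)).2).1
      (Nat.unpair (Nat.unpair (Nat.unpair (e z.1)).2).2).1
      (Nat.unpair (Nat.unpair (Nat.unpair (Nat.unpair (e z.1)).2).2).2).1
      (Nat.unpair (Nat.unpair (Nat.unpair (Nat.unpair (Nat.unpair (e z.1)).2).2).2).2).1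
      (Nat.unpair (Nat.unpair (Nat.unpair (Nat.unpair (Nat.unpair
        (Nat.unpair (e z.1)).2).2).2).2).2).1
      (Nat.unpair (Nat.unpair (Nat.unpair (Nat.unpair (Nat.unpair
        (Nat.unpair (e z.1)).2).2).2).2).2).2
      (Nat.log 2 (x z.1)) (x z.1) z.2) :=
    LS.outX c (α := α × ℕ) (e1 := fun z => (Nat.unpair (e z.1)).1)
      (e2 := fun z => (Nat.unpair (Nat.unpair (e z.1)).2).1)
      (e3 := fun z => (Nat.unpair (Nat.unpair (Nat.unpair (e z.1)).2).2).1)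
      (e4 := fun z => (Nat.unpair (Nat.unpair (Nat.unpair (Nat.unpair (e z.1)).2).2).2).1)
      (k := fun z => (Nat.unpair (Nat.unpair (Nat.unpair (Nat.unpair
        (Nat.unpair (e z.1)).2).2).2).2).1)
      (m := fun z => (Nat.unpair (Nat.unpair (Nat.unpair (Nat.unpair (Nat.unpair
        (Nat.unpair (e z.1)).2).2).2).2).2).1)
      (a := fun z => (Nat.unpair (Nat.unpair (Nat.unpair (Nat.unpair (Nat.unpair
        (Nat.unpair (e z.1)).2).2).2).2).2).2)
      (x := fun z => x z.1) (y := fun z => z.2) (by fun_prop) (by fun_prop) (by fun_prop)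
      (by fun_prop) (by fun_prop) (by fun_prop) (by fun_prop) (by fun_prop) (by fun_prop)
  unfold Xor.UX
  refine LS.sum_le (N := fun a => 2 ^ (c * Nat.log 2 (x a) + 1)) (B := fun _ => 1)
    (f := fun z y => lt01 0 y * (eq01 (Nat.log 2 y) (c * Nat.log 2 (x z)) *
      eq01 (Xor.outX c (Nat.unpair (e z)).1
      (Nat.unpair (Nat.unpair (e z)).2).1
      (Nat.unpair (Nat.unpair (Nat.unpair (e z)).2).2).1
      (Nat.unpair (Nat.unpair (Nat.unpair (Nat.unpair (e z)).2).2).2).1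
      (Nat.unpair (Nat.unpair (Nat.unpair (Nat.unpair (Nat.unpair (e z)).2).2).2).2).1
      (Nat.unpair (Nat.unpair (Nat.unpair (Nat.unpair (Nat.unpair
        (Nat.unpair (e z)).2).2).2).2).2).1
      (Nat.unpair (Nat.unpair (Nat.unpair (Nat.unpair (Nat.unpair
        (Nat.unpair (e z)).2).2).2).2).2).2
      (Nat.log 2 (x z)) (x z) y) 1)) ?_ ?_ (by fun_prop) ?_
  · exact LS.mul (by fun_prop) (LS.mul (by fun_prop) (LS.eq01 hout (LS.const 1)))
  · refine LS.pow_of_le (f := fun _ => 2) (g := fun a => c * Nat.log 2 (x a) + 1)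
      (C := fun a => (x a + 2) ^ (2 * (c + 1))) (by fun_prop) (by fun_prop) (by fun_prop)
      fun a => ?_
    refine le_trans ?_ (two_pow_log_le (x a) (c + 1))
    refine Nat.pow_le_pow_right (by norm_num) ?_
    ring_nf
    omega
  · intro z y _
    have h1 := lt01_le 0 y
    have h2 := eq01_le (Nat.log 2 y) (c * Nat.log 2 (x z))
    calc _ ≤ 1 * (1 * 1) := Nat.mul_le_mul h1 (Nat.mul_le_mul h2 (eq01_le _ _))
      _ = 1 := rfl

end Pool.Agent.Helper78.Xor
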